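import Pool.Agent.Q282.LD.Bx

/-!
# Large deviations of sums of periodic functions over boxes: the theorem
-/

set_option autoImplicit false
set_option linter.unusedSectionVars false

namespace Q282.LD

open Finset Filter
open Q282.CL
open Q282.BP (bx mem_bx card_bx PP loglog_tendsto)
open Pool.Agent.TH894.NE (box mem_box card_box Per mean mean_mul mean_mono mean_add mean_const)

lemma exp_three : (20 : ℝ) ≤ Real.exp 3 := by
  have h3 : Real.exp 3 = Real.exp 1 ^ 3 := by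
    rw [← Real.exp_nat_mul]
    norm_num
  have h4 : (2.7182818283 : ℝ) ≤ Real.exp 1 := Real.exp_one_gt_d9.le
  have h5 : (2.7182818283 : ℝ) ^ 3 ≤ Real.exp 1 ^ 3 := pow_le_pow_left₀ (by norm_num) h4 3
  rw [h3]
  refine le_trans ?_ h5
  norm_num

lemma exp_four : (50 : ℝ) ≤ Real.exp 4 := by
  have h3 : Real.exp 4 = Real.exp 3 * Real.exp 1 := by
    rw [← Real.exp_add]
    norm_num
  have h4 : (2.7 : ℝ) ≤ Real.exp 1 := by linarith [Real.exp_one_gt_d9]
  have h5 := exp_three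
  rw [h3]
  nlinarith

lemma exp_two : (5 : ℝ) ≤ Real.exp 2 := by
  have h3 : Real.exp 2 = Real.exp 1 ^ 2 := by
    rw [← Real.exp_nat_mul]
    norm_num
  have h4 : (2.7182818283 : ℝ) ≤ Real.exp 1 := Real.exp_one_gt_d9.le
  have h5 : (2.7182818283 : ℝ) ^ 2 ≤ Real.exp 1 ^ 2 := pow_le_pow_left₀ (by norm_num) h4 2
  rw [h3]
  refine le_trans ?_ h5
  norm_num

/-- `exp (x - c) ≤ exp x / C` -/
lemma exp_sub_const {x y c C : ℝ} (hC : 0 < C) (h : C ≤ Real.exp c) (hxy : y + c ≤ x) : Real.exp y ≤ Real.exp x / C := by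
  rw [le_div_iff₀ hC]
  calc Real.exp y * C ≤ Real.exp y * Real.exp c := mul_le_mul_of_nonneg_left h (Real.exp_pos _).le
    _ = Real.exp (y + c) := by rw [Real.exp_add]
    _ ≤ Real.exp x := Real.exp_le_exp.2 hxy

/-- the lower bound -/
lemma num_low {y δ s ε M E V P rN N u₁ u₂ err : ℝ} (hs : s = y + δ) (hδ0 : 0 < δ) (hδ1 : δ ≤ 1) (hy : 0 ≤ y) (hδε : δ * (4 * y + 3) ≤ ε)
    (hM : 0 ≤ M) (hE : 0 ≤ E) (hV1 : 1 ≤ V) (c4 : 2 * δ * M + 2 * E + 4 ≤ δ ^ 2 / 2 * V) (c5 : 2 * E + 6 ≤ V)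
    (c6 : E + 5 ≤ s ^ 2 / 2 * V) (c7 : E + 2 ≤ ε / 2 * V) (hu₁ : u₁ = y * V + 2 * M) (hu₂ : u₂ = (s + δ) * V)
    (hrN : (2 * s ^ 2 + 2) * V ≤ rN) (hN : (2 * s ^ 2 + 2) ^ 2 * V ≤ N) (herr : err ≤ 1)
    (H : 1 / 3 * (Real.exp (s ^ 2 / 2 * V - E) - Real.exp (-rN) * (Real.exp (2 * s ^ 2 * V + E) + 1)) ≤
      Real.exp (s * u₂) * P + Real.exp (δ * u₁ + (s - δ) ^ 2 / 2 * V + E) + Real.exp (-(δ * u₂) + (s + δ) ^ 2 / 2 * V + E) +
      6 * Real.exp (-(4 * N) + δ * u₂ + (s + δ) ^ 2 / 2 * V + E) + 3 * err) :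
    Real.exp (-((y ^ 2 / 2 + ε) * V)) ≤ P := by
  have hV0 : 0 < V := by linarith
  have hs0 : 0 < s := by linarith
  obtain ⟨A, hA⟩ : ∃ A : ℝ, A = Real.exp (s ^ 2 / 2 * V - E) := ⟨_, rfl⟩
  have hA0 : 0 < A := by rw [hA]; exact Real.exp_pos _
  have hδM : 0 ≤ δ * M := by positivity
  -- the first term
  have t1 : Real.exp (-rN) * (Real.exp (2 * s ^ 2 * V + E) + 1) ≤ A / 10 := by
    have h1 : Real.exp (-rN) * (Real.exp (2 * s ^ 2 * V + E) + 1) ≤ 2 * Real.exp (-rN + (2 * s ^ 2 * V + E)) := by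
      have h2 : 1 ≤ Real.exp (2 * s ^ 2 * V + E) := Real.one_le_exp (by positivity)
      rw [Real.exp_add (-rN)]
      have h3 := mul_le_mul_of_nonneg_left h2 (Real.exp_pos (-rN)).le
      linarith
    have h2 : Real.exp (-rN + (2 * s ^ 2 * V + E)) ≤ A / 20 := by
      rw [hA]
      refine exp_sub_const (by norm_num) exp_three ?_
      have : 0 ≤ s ^ 2 * V := by positivity
      linarith
    linarith
  have t2 : Real.exp (δ * u₁ + (s - δ) ^ 2 / 2 * V + E) ≤ A / 50 := by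
    rw [hA]
    refine exp_sub_const (by norm_num) exp_four ?_
    have e : δ * u₁ + (s - δ) ^ 2 / 2 * V + E = s ^ 2 / 2 * V - δ ^ 2 / 2 * V + 2 * δ * M + E := by
      rw [hu₁, hs]
      ring
    rw [e]
    linarith
  have t3 : Real.exp (-(δ * u₂) + (s + δ) ^ 2 / 2 * V + E) ≤ A / 50 := by
    rw [hA]
    refine exp_sub_const (by norm_num) exp_four ?_
    have e : -(δ * u₂) + (s + δ) ^ 2 / 2 * V + E = s ^ 2 / 2 * V - δ ^ 2 / 2 * V + E := by
      rw [hu₂]
      ring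
    rw [e]
    linarith
  have t4 : 6 * Real.exp (-(4 * N) + δ * u₂ + (s + δ) ^ 2 / 2 * V + E) ≤ 6 * (A / 400) := by
    refine mul_le_mul_of_nonneg_left ?_ (by norm_num)
    rw [hA]
    have h6 : (400 : ℝ) ≤ Real.exp 6 := by
      have h7 : Real.exp 6 = Real.exp 3 * Real.exp 3 := by
        rw [← Real.exp_add]
        norm_num
      rw [h7]
      nlinarith [exp_three]
    refine exp_sub_const (by norm_num) h6 ?_
    have e : δ * u₂ + (s + δ) ^ 2 / 2 * V = s ^ 2 / 2 * V + (2 * δ * s + 3 / 2 * δ ^ 2) * V := by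
      rw [hu₂]
      ring
    have h8 : (2 * δ * s + 3 / 2 * δ ^ 2) * V ≤ (s ^ 2 + 1 + 3 / 2) * V := by
      refine mul_le_mul_of_nonneg_right ?_ hV0.le
      have h9 : δ * s ≤ 1 * s := mul_le_mul_of_nonneg_right hδ1 hs0.le
      have h10 : δ ^ 2 ≤ 1 := pow_le_one₀ hδ0.le hδ1
      have h11 := sq_nonneg (s - 1)
      nlinarith
    have h9 : (s ^ 2 + 1 + 3 / 2 + 1) * V ≤ 4 * ((2 * s ^ 2 + 2) ^ 2 * V) := by
      have h10 : s ^ 2 + 1 + 3 / 2 + 1 ≤ 4 * (2 * s ^ 2 + 2) ^ 2 := by nlinarith [sq_nonneg s, sq_nonneg (s ^ 2)]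
      have := mul_le_mul_of_nonneg_right h10 hV0.le
      linarith
    linarith
  have t5 : 3 * err ≤ A / 40 := by
    have h1 : Real.exp 5 ≤ A := by
      rw [hA]
      exact Real.exp_le_exp.2 (by linarith)
    have h2 : (120 : ℝ) ≤ Real.exp 5 := by
      have h7 : Real.exp 5 = Real.exp 4 * Real.exp 1 := by
        rw [← Real.exp_add]
        norm_num
      rw [h7]
      nlinarith [exp_four, Real.exp_one_gt_d9]
    linarith
  rw [← hA] at H
  have hfin : A / 5 ≤ Real.exp (s * u₂) * P := by linarith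
  have h1 : Real.exp (-((y ^ 2 / 2 + ε) * V)) ≤ Real.exp (-(s * u₂)) * (A / 5) := by
    have h2 : Real.exp (-(s * u₂)) * (A / 5) = Real.exp (-(s * u₂) + (s ^ 2 / 2 * V - E)) / 5 := by
      rw [hA, Real.exp_add]
      ring
    rw [h2]
    refine exp_sub_const (by norm_num) exp_two ?_
    have h3 : s * u₂ - s ^ 2 / 2 * V = (y ^ 2 / 2 + 2 * y * δ + 3 / 2 * δ ^ 2) * V := by
      rw [hu₂, hs]
      ring
    have h4 : (y ^ 2 / 2 + 2 * y * δ + 3 / 2 * δ ^ 2) * V ≤ (y ^ 2 / 2 + ε / 2) * V := by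
      refine mul_le_mul_of_nonneg_right ?_ hV0.le
      have h10 : δ ^ 2 ≤ δ := by nlinarith
      nlinarith
    linarith
  have h5 : Real.exp (-(s * u₂)) * (A / 5) ≤ Real.exp (-(s * u₂)) * (Real.exp (s * u₂) * P) := mul_le_mul_of_nonneg_left hfin (Real.exp_pos _).le
  have h6 : Real.exp (-(s * u₂)) * (Real.exp (s * u₂) * P) = P := by
    rw [← mul_assoc, ← Real.exp_add, neg_add_cancel, Real.exp_zero, one_mul]
  linarith

/-- the upper bound -/
lemma num_up {y ε M E V P err u : ℝ} (hE : 0 ≤ E) (hV1 : 1 ≤ V) (herr : err ≤ 1) (hu : u = y * V - M)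
    (c8 : y * M + E + 3 ≤ ε * V) (H : P ≤ 3 * Real.exp (-(y * u)) * (2 * Real.exp (y ^ 2 / 2 * V + E) + err)) :
    P ≤ Real.exp (-((y ^ 2 / 2 - ε) * V)) := by
  have h1 : 2 * Real.exp (y ^ 2 / 2 * V + E) + err ≤ 3 * Real.exp (y ^ 2 / 2 * V + E) := by
    have : 1 ≤ Real.exp (y ^ 2 / 2 * V + E) := Real.one_le_exp (by positivity)
    linarith
  have h2 : 3 * Real.exp (-(y * u)) * (2 * Real.exp (y ^ 2 / 2 * V + E) + err) ≤ 9 * Real.exp (-(y * u) + (y ^ 2 / 2 * V + E)) := by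
    refine (mul_le_mul_of_nonneg_left h1 (by positivity)).trans (le_of_eq ?_)
    rw [Real.exp_add (-(y * u))]
    ring
  have h3 : 9 * Real.exp (-(y * u) + (y ^ 2 / 2 * V + E)) ≤ Real.exp 3 * Real.exp (-(y * u) + (y ^ 2 / 2 * V + E)) :=
    mul_le_mul_of_nonneg_right (by linarith [exp_three]) (Real.exp_pos _).le
  rw [← Real.exp_add] at h3
  refine H.trans (h2.trans (h3.trans (Real.exp_le_exp.2 ?_)))
  have e : y * u = y ^ 2 * V - y * M := by
    rw [hu]
    ring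
  rw [e]
  linarith

/-- **Large deviations** of sums of periodic functions over boxes. -/
theorem ldp_bx (d : ℕ) (B M κ₀ y ε : ℝ) (hB : 0 < B) (hM : 0 ≤ M) (hy : 0 ≤ y) (hε : 0 < ε) : ∃ X₁ : ℕ, ∀ X : ℕ, X₁ ≤ X →
    ∀ T : ℝ, (X : ℝ) ^ ((Real.log (Real.log X)) ^ 3) ≤ T → ∀ L : Fin d → ℕ, (∀ i, T ≤ L i) →
    ∀ g : ℕ → (Fin d → ℕ) → ℝ, (∀ p : ℕ, p.Prime → Per p (g p)) → (∀ p : ℕ, p.Prime → ∀ n, |g p n| ≤ B / Real.sqrt p) →
    |∑ p ∈ PP X, mean d p (g p) - κ₀ * Real.log (Real.log X)| ≤ M → |∑ p ∈ PP X, vr g p - Real.log (Real.log X)| ≤ M →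
    Real.exp (-((y ^ 2 / 2 + ε) * Real.log (Real.log X))) * ∏ i, (L i : ℝ) ≤
      (((bx L).filter fun n => (κ₀ + y) * Real.log (Real.log X) ≤ ∑ p ∈ PP X, g p n).card : ℝ) ∧
    (((bx L).filter fun n => (κ₀ + y) * Real.log (Real.log X) ≤ ∑ p ∈ PP X, g p n).card : ℝ) ≤
      Real.exp (-((y ^ 2 / 2 - ε) * Real.log (Real.log X))) * ∏ i, (L i : ℝ) := by
  classical
  obtain ⟨C₀, hC₀0, hC₀⟩ := summ
  obtain ⟨δ, hδ⟩ : ∃ δ : ℝ, δ = min 1 (ε / (4 * y + 3)) := ⟨_, rfl⟩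
  have hδ0 : 0 < δ := by
    rw [hδ]
    exact lt_min one_pos (by positivity)
  have hδ1 : δ ≤ 1 := by rw [hδ]; exact min_le_left _ _
  have hδε : δ * (4 * y + 3) ≤ ε := by
    have h1 : δ ≤ ε / (4 * y + 3) := by rw [hδ]; exact min_le_right _ _
    rwa [le_div_iff₀ (by positivity)] at h1
  obtain ⟨s, hs⟩ : ∃ s : ℝ, s = y + δ := ⟨_, rfl⟩
  have hs0 : 0 < s := by rw [hs]; positivity
  obtain ⟨E, hE⟩ : ∃ E : ℝ, E = 2 * s ^ 2 * M + C₀ * ((2 * (2 * s) * B) ^ 3 * Real.exp (2 * (2 * s) * B)) +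
    C₀ * ((2 * s * B) ^ 3 * Real.exp (2 * s * B) + (2 * s * B) ^ 4) := ⟨_, rfl⟩
  have hE1 : 0 ≤ C₀ * ((2 * (2 * s) * B) ^ 3 * Real.exp (2 * (2 * s) * B)) := by positivity
  have hE2 : 0 ≤ C₀ * ((2 * s * B) ^ 3 * Real.exp (2 * s * B) + (2 * s * B) ^ 4) := by positivity
  have hE3 : 0 ≤ 2 * s ^ 2 * M := by positivity
  have hE0 : 0 ≤ E := by rw [hE]; positivity
  obtain ⟨K, hK⟩ : ∃ K : ℝ, K = (2 * s ^ 2 + 2) ^ 2 := ⟨_, rfl⟩
  have hK0 : 0 < K := by rw [hK]; positivity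
  obtain ⟨C, hC⟩ : ∃ C : ℝ, C = max 1 (2 * B) := ⟨_, rfl⟩
  have hC1 : 1 ≤ C := by rw [hC]; exact le_max_left _ _
  have hBC : 2 * B ≤ C := by rw [hC]; exact le_max_right _ _
  have a0 : ∀ c : ℝ, ∀ᶠ X : ℕ in atTop, c ≤ Real.log (Real.log X) := fun c => loglog_tendsto.eventually_ge_atTop c
  have a1 : ∀ c : ℝ, ∀ᶠ X : ℕ in atTop, c ≤ (X : ℝ) := fun c => tendsto_natCast_atTop_atTop.eventually_ge_atTop c
  have key := ((((a0 (16 * K + 17)).and (a0 (2 * M / δ))).and ((a0 ((2 * δ * M + 2 * E + 4) * 2 / δ ^ 2)).and (a0 (2 * E + 6)))).and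
    (((a0 ((E + 5) * 2 / s ^ 2)).and (a0 ((E + 2) * 2 / ε))).and ((a0 ((y * M + E + 3) / ε)).and (a0 (M / y))))).and
    (((a1 C).and (a1 (2 * d))).and ((a1 ((1 + s) ^ 2)).and (a1 16)))
  obtain ⟨X₁, hX₁⟩ := eventually_atTop.1 key
  refine ⟨X₁, ?_⟩
  intro X hX T hT L hL g hgP hgB hmean hvar
  obtain ⟨⟨⟨⟨b1, b2⟩, b3, b4⟩, ⟨b5, b6⟩, b7, b8⟩, ⟨d1, d2⟩, d3, d4⟩ := hX₁ X hX
  clear hX₁ key a0 a1
  obtain ⟨V, hV⟩ : ∃ V : ℝ, V = Real.log (Real.log X) := ⟨_, rfl⟩
  rw [← hV] at b1 b2 b3 b4 b5 b6 b7 b8 hT hmean hvar ⊢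
  have hV1 : 1 ≤ V := by linarith
  have hV0 : 0 < V := by linarith
  have hX16 : 16 ≤ X := by exact_mod_cast d4
  have hX1 : (1 : ℝ) ≤ X := by linarith
  rw [div_le_iff₀ hδ0] at b2
  rw [div_le_iff₀ (by positivity)] at b3 b5 b6
  rw [div_le_iff₀ hε] at b7
  -- the number N
  obtain ⟨N, hN⟩ : ∃ N : ℕ, N = ⌈K * V ^ 2⌉₊ := ⟨_, rfl⟩
  have hNge : K * V ^ 2 ≤ N := by
    rw [hN]
    exact Nat.le_ceil _
  have hNle : (N : ℝ) ≤ K * V ^ 2 + 1 := by
    rw [hN]
    exact (Nat.ceil_lt_add_one (by positivity)).le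
  have hN1 : 1 ≤ N := by
    have : 0 < N := by
      rw [hN]
      exact Nat.ceil_pos.2 (by positivity)
    exact this
  have hrN : (2 * s ^ 2 + 2) * V ≤ Real.sqrt N := by
    refine Real.le_sqrt_of_sq_le ?_
    rw [mul_pow, ← hK]
    exact hNge
  have hVV : V ≤ V ^ 2 := le_self_pow₀ hV1 (by norm_num)
  have hKN : (2 * s ^ 2 + 2) ^ 2 * V ≤ N := by
    rw [← hK]
    exact (mul_le_mul_of_nonneg_left hVV hK0.le).trans hNge
  have hTpow : (X : ℝ) ^ (16 * N + 1) ≤ T := by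
    refine le_trans ?_ hT
    rw [← Real.rpow_natCast]
    refine Real.rpow_le_rpow_of_exponent_le hX1 ?_
    push_cast
    have h1 : 1 ≤ V ^ 2 := one_le_pow₀ hV1
    have h2 : (16 * K + 17) * V ^ 2 ≤ V * V ^ 2 := mul_le_mul_of_nonneg_right b1 (by positivity)
    have h3 : V ^ 3 = V * V ^ 2 := by ring
    rw [h3]
    linarith
  have hT0 : 0 < T := lt_of_lt_of_le (by positivity) hTpow
  have hL0 : ∀ i, 0 < L i := fun i => by
    have : (0 : ℝ) < L i := hT0.trans_le (hL i)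
    exact_mod_cast this
  have hneL : Nonempty (bx L) := bx_nonempty hL0
  have hP0 : 0 < ∏ i, (L i : ℝ) := prod_pos fun i _ => by exact_mod_cast hL0 i
  have hprime : ∀ p ∈ PP X, p.Prime := fun p hp => (mem_filter.1 hp).2
  have hne : ∀ p : PP X, Nonempty (box d p) := box_nonempty hprime
  have hgC : ∀ p : ℕ, p.Prime → ∀ n, |zc g p n| ≤ C := by
    intro p hp n
    refine (zc_le hp (hgB p hp) n).trans (le_trans ?_ hBC)
    refine div_le_self (by positivity) ?_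
    rw [Real.one_le_sqrt]
    exact_mod_cast hp.one_lt.le
  have hclose := close (d := d) (g := g) X N (by omega) hgP hC1 hgC hT0 hL
  obtain ⟨η, hη⟩ : ∃ η : ℝ, η = C ^ (4 * N) * (Real.exp (d * (X : ℝ) ^ (4 * N) / T) - 1) := ⟨_, rfl⟩
  have hη0 : 0 ≤ η := by
    rw [hη]
    refine mul_nonneg (by positivity) ?_
    have : 0 ≤ (d : ℝ) * (X : ℝ) ^ (4 * N) / T := by positivity
    linarith [Real.one_le_exp this]
  rw [← hη] at hclose
  have hcard : (Fintype.card (PP X) : ℝ) ≤ X := by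
    rw [Fintype.card_coe]
    have h1 : (PP X).card ≤ X := by
      refine (card_filter_le _ _).trans ?_
      rw [Nat.card_Icc]
      omega
    exact_mod_cast h1
  -- the exponential moments
  have hv := abs_le.1 hvar
  have hU : ∀ l : ℝ, |l| ≤ 2 * s → av (fun ω : ∀ p : PP X, box d p => Real.exp (l * ∑ p : PP X, zc g p (ω p))) ≤
      Real.exp (l ^ 2 / 2 * V + E) := by
    intro l hl
    refine (exp_up hC₀ hB X hgB hl).trans (Real.exp_le_exp.2 ?_)
    have h1 : l ^ 2 / 2 * ∑ p ∈ PP X, vr g p ≤ l ^ 2 / 2 * (V + M) := mul_le_mul_of_nonneg_left (by linarith) (by positivity)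
    have h2 : l ^ 2 ≤ (2 * s) ^ 2 := by
      rw [← sq_abs l]
      exact pow_le_pow_left₀ (abs_nonneg _) hl 2
    have h3 : l ^ 2 / 2 * M ≤ 2 * s ^ 2 * M := by
      have := mul_le_mul_of_nonneg_right h2 hM
      linarith
    rw [hE]
    linarith
  have hLow : Real.exp (s ^ 2 / 2 * V - E) ≤ av (fun ω : ∀ p : PP X, box d p => Real.exp (s * ∑ p : PP X, zc g p (ω p))) := by
    refine le_trans (Real.exp_le_exp.2 ?_) (exp_low hC₀ hB X hgB hs0.le)
    have h1 : s ^ 2 / 2 * (V - M) ≤ s ^ 2 / 2 * ∑ p ∈ PP X, vr g p := mul_le_mul_of_nonneg_left (by linarith) (by positivity)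
    have h2 : 0 ≤ s ^ 2 * M := by positivity
    rw [hE]
    linarith
  -- the errors
  have hVX : V ≤ X := by
    have h1 : 0 < Real.log X := Real.log_pos (by linarith)
    have h2 := Real.log_le_sub_one_of_pos h1
    have h3 := Real.log_le_sub_one_of_pos (by linarith : (0 : ℝ) < X)
    rw [hV]
    linarith
  have hA : 1 + s * (X + (s + δ) * V) ≤ (X : ℝ) ^ 2 := by
    have h1 : (s + δ) * V ≤ (s + 1) * X := mul_le_mul (by linarith) hVX hV0.le (by positivity)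
    have h2 : s * (X + (s + δ) * V) ≤ s * (X + (s + 1) * X) := mul_le_mul_of_nonneg_left (by linarith) hs0.le
    have h3 : (1 + s) ^ 2 * X ≤ X * X := mul_le_mul_of_nonneg_right d3 (by linarith)
    have h4 : (X : ℝ) ^ 2 = X * X := sq _
    have h5 : (1 + s) ^ 2 * X = X + 2 * (s * X) + s ^ 2 * X := by ring
    have h6 : s * (X + (s + 1) * X) = 2 * (s * X) + s ^ 2 * X := by ring
    rw [h4]
    linarith
  have herr1 : (1 + s * (X + (s + δ) * V)) ^ (4 * N) * η ≤ 1 := by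
    rw [hη]
    exact err_one (by omega) hC1 d1 d2 hTpow (by positivity) hA
  have herr2 : (1 + y * X) ^ (4 * N) * η ≤ 1 := by
    refine le_trans (mul_le_mul_of_nonneg_right (pow_le_pow_left₀ (by positivity) ?_ _) hη0) herr1
    have h1 : y * X ≤ s * X := mul_le_mul_of_nonneg_right (by rw [hs]; linarith) (by linarith)
    have h2 : 0 ≤ s * ((s + δ) * V) := by positivity
    linarith
  -- the proportion
  obtain ⟨R, hR⟩ : ∃ R : ℝ, R = av (fun n : bx L => if (κ₀ + y) * V ≤ ∑ p ∈ PP X, g p n then (1 : ℝ) else 0) := ⟨_, rfl⟩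
  have hRcard : (((bx L).filter fun n => (κ₀ + y) * V ≤ ∑ p ∈ PP X, g p n).card : ℝ) = R * ∏ i, (L i : ℝ) := by
    rw [hR, av_bx L (fun n => if (κ₀ + y) * V ≤ ∑ p ∈ PP X, g p n then (1 : ℝ) else 0), div_mul_cancel₀ _ hP0.ne', ← sum_filter, sum_const, nsmul_eq_mul, mul_one]
  have hsplit : ∀ n : Fin d → ℕ, ∑ p ∈ PP X, g p n = ∑ p : PP X, zc g p n + ∑ p ∈ PP X, mean d p (g p) := by
    intro n
    rw [Finset.sum_coe_sort (PP X) (fun p => zc g p n), ← sum_add_distrib]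
    refine sum_congr rfl fun p _ => ?_
    unfold zc
    ring
  have hm := abs_le.1 hmean
  rw [hRcard]
  refine ⟨mul_le_mul_of_nonneg_right ?_ hP0.le, mul_le_mul_of_nonneg_right ?_ hP0.le⟩
  · -- the lower bound
    have h1 := lower_tail (α := bx L) (ι := PP X) (Ω := fun p : PP X => box d p) (fun p n => zc g p n) (fun p n => zc g p n) hN1 hη0
      hcard hclose (s := s) (δ := δ) (u₁ := y * V + 2 * M) (u₂ := (s + δ) * V) hδ0.le (by rw [hs]; linarith) (by positivity)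
      (by rw [hs]; linarith) hV0.le hU hLow
    have h2 := num_low hs hδ0 hδ1 hy hδε hM hE0 hV1 (by linarith) b4 (by linarith) (by linarith) rfl rfl hrN hKN herr1 h1
    refine h2.trans ?_
    rw [hR]
    refine av_mono fun n => ?_
    split_ifs with h3 h4 h4
    · exact le_rfl
    · exfalso
      apply h4
      rw [hsplit]
      linarith
    · exact zero_le_one
    · exact le_rfl
  · -- the upper bound
    rcases hy.eq_or_lt with hy0 | hy0
    · have h1 : R ≤ 1 := by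
        rw [hR]
        refine (av_mono (g := fun _ => (1 : ℝ)) fun n => ?_).trans (le_of_eq (av_const _))
        split_ifs
        · exact le_rfl
        · exact zero_le_one
      refine h1.trans (Real.one_le_exp ?_)
      rw [← hy0]
      have : 0 ≤ ε * V := by positivity
      linarith
    · rw [div_le_iff₀ hy0] at b8
      have hu0 : 0 ≤ y * V - M := by linarith
      have hys : y ≤ s := by rw [hs]; linarith
      have h1 := upper_tail (α := bx L) (ι := PP X) (Ω := fun p : PP X => box d p) (fun p n => zc g p n) (fun p n => zc g p n) hN1 hη0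
        hcard hclose (s := y) (u := y * V - M) (U := Real.exp (y ^ 2 / 2 * V + E)) hy hu0 (by
          have h2 : y * (y * V - M) ≤ (2 * s ^ 2 + 2) * V := by
            have h3 : y * (y * V - M) ≤ y * (y * V) := mul_le_mul_of_nonneg_left (by linarith) hy
            have h4 : y * y ≤ s * s := mul_le_mul hys hys hy hs0.le
            have h5 : y * y * V ≤ s * s * V := mul_le_mul_of_nonneg_right h4 hV0.le
            have h6 : 0 ≤ s * s * V := by positivity
            have h7 : (2 * s ^ 2 + 2) * V = 2 * (s * s * V) + 2 * V := by ring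
            have h8 : y * (y * V) = y * y * V := by ring
            linarith
          have h3 := pow_le_pow_left₀ (mul_nonneg hy hu0) h2 2
          refine h3.trans ?_
          rw [mul_pow, ← hK]
          exact hNge) (hU y (by rw [abs_of_nonneg hy]; linarith)) (by
          have h2 := hU (-y) (by rw [abs_neg, abs_of_nonneg hy]; linarith)
          rw [neg_sq] at h2
          exact h2)
      refine le_trans ?_ (num_up hE0 hV1 herr2 rfl (by linarith) h1)
      rw [hR]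
      refine av_mono fun n => ?_
      split_ifs with h3 h4 h4
      · exact le_rfl
      · exfalso
        apply h4
        rw [hsplit] at h3
        linarith
      · exact zero_le_one
      · exact le_rfl

end Q282.LD
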