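import Pool.Agent.Q282.NF.LawNF
import Pool.Agent.Q282.CL.Loc2
import Pool.Agent.Q282.LD.Main

/-!
# The second moments of the local values over a number field
-/

set_option autoImplicit false
set_option linter.unusedSectionVars false

namespace Q282.LD

open Finset NumberField IsDedekindDomain
open Q282.NF
open Pool.Agent.H921R2.TatePole (below deg nm nm_eq)
open Pool.Agent.TH894.NE (Per mean mean_const mean_mono mean_add mean_mul)

/-- the local second moments -/
theorem loc_sq (r : ℕ) (hr : r ≤ 2) : ∃ C : ℝ, 0 ≤ C ∧ ∀ (F : Type) [Field F] [Fintype F] [DecidableEq F], ringChar F ≠ 2 →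
    (27 : F) ≠ 0 → |(∑ t : Fin (r + 3) → F, locF (BP.fam r t) ^ 2) / Fintype.card (Fin (r + 3) → F) - 1 / Fintype.card F| ≤
      C / (Fintype.card F : ℝ) ^ (3 / 2 : ℝ) := by
  classical
  obtain ⟨C', hC'0, hC'⟩ := Q282.CL.local_sq 20 (by norm_num)
  refine ⟨C', hC'0, fun F _ _ _ hF h27 => ?_⟩
  obtain ⟨hb, hm1, hm2⟩ := BP.loc_fam hF (Or.inl h27) r hr
  have h1 := hC' (Fintype.card F) (three_le_card hF) (Fin (r + 3) → F) (fun t => BP.SS (BP.fam r t)) (fun t => BP.dis (BP.fam r t) = 0)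
    (fun t => hasse hF (BP.fam r t)) (by convert hb) hm2
  refine le_trans (le_of_eq ?_) h1
  congr 3
  refine sum_congr rfl fun u _ => ?_
  unfold locF
  split_ifs <;> rfl

section

variable {O A : Type} [CommRing O] [CommRing A] [Fintype A]

/-- the mean over the residues -/
theorem mean_redA {m d : ℕ} (p : ℕ) [hp : Fact p.Prime] [CharP A p] (π : O →+* A) (hπ : Function.Surjective π)
    (b : Fin d → O) (hb : ∀ x : O, ∃ a : Fin d → ℤ, x = ∑ j, (a j : O) * b j) (N : Fin m → Fin d → ℤ)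
    (G : (Fin m → A) → ℝ) :
    mean (m * d) p (fun n => G (fun i => π (elt b (fun i j => N i j + n (finProdFinEquiv (i, j))) i))) =
      (∑ u : Fin m → A, G u) / Fintype.card (Fin m → A) := by
  classical
  have hne : Nonempty A := ⟨0⟩
  obtain ⟨c, hc⟩ : ∃ c : ZMod p →+* A, c = ZMod.castHom (dvd_refl p) A := ⟨_, rfl⟩
  obtain ⟨Φ, hΦ⟩ : ∃ Φ : (Fin (m * d) → ZMod p) →+ (Fin m → A), ∀ u i, Φ u i = ∑ j, c (u (finProdFinEquiv (i, j))) * π (b j) :=
    ⟨{ toFun := fun u i => ∑ j, c (u (finProdFinEquiv (i, j))) * π (b j)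
       map_zero' := by
         funext i
         simp
       map_add' := by
         intro u v
         funext i
         simp [add_mul, sum_add_distrib] }, fun _ _ => rfl⟩
  have hsurj : Function.Surjective Φ := by
    intro v
    have h1 : ∀ i, ∃ a : Fin d → ℤ, v i = ∑ j, (a j : A) * π (b j) := by
      intro i
      obtain ⟨x, hx⟩ := hπ (v i)
      obtain ⟨a, ha⟩ := hb x
      refine ⟨a, ?_⟩
      rw [← hx, ha, map_sum]
      refine sum_congr rfl fun j _ => ?_
      rw [map_mul, map_intCast]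
    choose a ha using h1
    refine ⟨fun k => (a (finProdFinEquiv.symm k).1 (finProdFinEquiv.symm k).2 : ZMod p), ?_⟩
    funext i
    rw [hΦ, ha]
    refine sum_congr rfl fun j _ => ?_
    rw [Equiv.symm_apply_apply, map_intCast]
  obtain ⟨w, hw⟩ : ∃ w : Fin m → A, w = fun i => ∑ j, (N i j : A) * π (b j) := ⟨_, rfl⟩
  have h1 : ∀ n : Fin (m * d) → ℕ, G (fun i => π (elt b (fun i j => N i j + n (finProdFinEquiv (i, j))) i)) =
      (fun u : Fin (m * d) → ZMod p => G (w + Φ u)) (fun k => (n k : ZMod p)) := by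
    intro n
    show _ = G (w + Φ (fun k => (n k : ZMod p)))
    congr 1
    funext i
    rw [Pi.add_apply, hΦ, hw]
    unfold elt
    rw [map_sum, ← sum_add_distrib]
    refine sum_congr rfl fun j _ => ?_
    rw [map_mul, map_intCast, map_natCast]
    push_cast
    ring
  unfold Pool.Agent.TH894.NE.mean
  rw [sum_congr rfl fun n _ => h1 n, Pool.Agent.Y57.FD.HM.sum_box p (fun u : Fin (m * d) → ZMod p => G (w + Φ u))]
  have h2 := sum_surj Φ hsurj (fun v => G (w + v))
  have h3 : ∑ v : Fin m → A, G (w + v) = ∑ v : Fin m → A, G v := Fintype.sum_equiv (Equiv.addLeft w) _ _ fun _ => rfl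
  rw [h3] at h2
  have h4 : (Fintype.card (Fin (m * d) → ZMod p) : ℝ) = (p : ℝ) ^ (m * d) := by
    rw [Fintype.card_pi_const, ZMod.card]
    push_cast
    rfl
  rw [h4] at h2
  have h5 : (0 : ℝ) < (p : ℝ) ^ (m * d) := by
    have : (0 : ℝ) < p := by exact_mod_cast hp.out.pos
    positivity
  have h6 : (0 : ℝ) < Fintype.card (Fin m → A) := by exact_mod_cast Fintype.card_pos
  rw [eq_div_iff h6.ne', one_div, mul_assoc, h2, inv_mul_cancel_left₀ h5.ne']

/-- sums of products over products -/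
lemma sum_prod_fun {F F' : Type} [Fintype F] [Fintype F'] {m : ℕ} (G : (Fin m → F) → ℝ) (G' : (Fin m → F') → ℝ) :
    ∑ u : Fin m → F × F', G (fun i => (u i).1) * G' (fun i => (u i).2) = (∑ u, G u) * ∑ u, G' u := by
  classical
  rw [sum_mul_sum, ← Fintype.sum_prod_type' (f := fun u u' => G u * G' u')]
  refine Fintype.sum_equiv (Equiv.arrowProdEquivProdArrow (Fin m) (fun _ => F) (fun _ => F')) _ _ fun u => ?_
  rfl

/-- the joint mean for two different residue fields -/
theorem mean_red2 {F F' : Type} [Field F] [Fintype F] [Field F'] [Fintype F'] {m d : ℕ} (p : ℕ) [hp : Fact p.Prime] [CharP F p] [CharP F' p]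
    (π : O →+* F) (π' : O →+* F')
    (hππ : ∀ x y : O, ∃ z : O, π z = π x ∧ π' z = π' y) (hπ : Function.Surjective π) (hπ' : Function.Surjective π')
    (b : Fin d → O) (hb : ∀ x : O, ∃ a : Fin d → ℤ, x = ∑ j, (a j : O) * b j) (N : Fin m → Fin d → ℤ)
    (G : (Fin m → F) → ℝ) (G' : (Fin m → F') → ℝ) :
    mean (m * d) p (fun n => G (fun i => π (elt b (fun i j => N i j + n (finProdFinEquiv (i, j))) i)) *
      G' (fun i => π' (elt b (fun i j => N i j + n (finProdFinEquiv (i, j))) i))) =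
      mean (m * d) p (fun n => G (fun i => π (elt b (fun i j => N i j + n (finProdFinEquiv (i, j))) i))) *
      mean (m * d) p (fun n => G' (fun i => π' (elt b (fun i j => N i j + n (finProdFinEquiv (i, j))) i))) := by
  classical
  have hsurj : Function.Surjective (RingHom.prod π π') := by
    rintro ⟨x, y⟩
    obtain ⟨x', rfl⟩ := hπ x
    obtain ⟨y', rfl⟩ := hπ' y
    obtain ⟨z, hz, hz'⟩ := hππ x' y'
    exact ⟨z, Prod.ext hz hz'⟩
  have hcp : CharP (F × F') p := by
    constructor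
    intro x
    rw [← CharP.cast_eq_zero_iff F p x]
    constructor
    · intro h
      have := congrArg Prod.fst h
      simpa using this
    · intro h
      have h' : (x : F') = 0 := by
        rw [CharP.cast_eq_zero_iff F' p x, ← CharP.cast_eq_zero_iff F p x]
        exact h
      refine Prod.ext ?_ ?_
      · simpa using h
      · simpa using h'
  have h1 := mean_redA (A := F × F') p (RingHom.prod π π') hsurj b hb N (fun u => G (fun i => (u i).1) * G' (fun i => (u i).2))
  rw [mean_redA p π hπ b hb N G, mean_redA p π' hπ' b hb N G']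
  refine h1.trans ?_
  rw [sum_prod_fun]
  have hcard : (Fintype.card (Fin m → F × F') : ℝ) = Fintype.card (Fin m → F) * Fintype.card (Fin m → F') := by
    have h2 := sum_prod_fun (F := F) (F' := F') (m := m) (fun _ => 1) (fun _ => 1)
    simp only [mul_one, sum_const, card_univ, nsmul_eq_mul] at h2
    exact h2
  rw [hcard, div_mul_div_comm]

end

section

variable {K : Type} [Field K] [NumberField K]

/-- the residue field -/
lemma hv_eq2 (v : HeightOneSpectrum (𝓞 K)) (h5 : 5 ≤ (below v : ℕ)) :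
    ∃ (F : Type) (_ : Field F) (_ : Fintype F) (_ : DecidableEq F) (π : 𝓞 K →+* F), Function.Surjective π ∧ RingHom.ker π = v.asIdeal ∧
      ringChar F ≠ 2 ∧ CharP F (below v : ℕ) ∧ Fintype.card F = Ideal.absNorm v.asIdeal ∧ (27 : F) ≠ 0 ∧
      ∀ C, hv v C = locF (mapC π C) := by
  classical
  have hnot : ∀ m : ℕ, 0 < m → (∀ p : ℕ, p.Prime → p ∣ m → p < 5) → (m : 𝓞 K) ∉ v.asIdeal := by
    intro m hm hpm h
    have h1 : (((m : ℕ) : ℤ) : 𝓞 K) ∈ v.asIdeal := by
      rw [Int.cast_natCast]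
      exact h
    rw [Pool.Agent.H921R2.TatePole.int_mem_iff] at h1
    have h3 : (below v : ℕ) ∣ m := by exact_mod_cast h1
    have := hpm _ (below v).prop h3
    omega
  have h2 : (2 : 𝓞 K) ∉ v.asIdeal := by
    have := hnot 2 (by norm_num) (fun p hp h => by
      have := Nat.le_of_dvd (by norm_num) h
      omega)
    exact_mod_cast this
  have h27 : (27 : 𝓞 K) ∉ v.asIdeal := by
    have := hnot 27 (by norm_num) (fun p hp h => by
      have h3 : p ∣ 3 ^ 3 := by
        norm_num
        exact h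
      have := (Nat.prime_dvd_prime_iff_eq hp Nat.prime_three).1 (hp.dvd_of_dvd_pow h3)
      omega)
    exact_mod_cast this
  have hmax : v.asIdeal.IsMaximal := v.isPrime.isMaximal v.ne_bot
  let _ : Field (𝓞 K ⧸ v.asIdeal) := Ideal.Quotient.field v.asIdeal
  have hfin : Finite (𝓞 K ⧸ v.asIdeal) := Nat.finite_of_card_ne_zero (nm_pos v).ne'
  let _ : Fintype (𝓞 K ⧸ v.asIdeal) := Fintype.ofFinite _
  have hcard : Fintype.card (𝓞 K ⧸ v.asIdeal) = Ideal.absNorm v.asIdeal := by
    rw [← Nat.card_eq_fintype_card]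
    rfl
  have hchar : CharP (𝓞 K ⧸ v.asIdeal) (below v : ℕ) := by
    have hp := (nm_eq v).2.2
    have h0 : (((below v : ℕ) : ℕ) : 𝓞 K ⧸ v.asIdeal) = 0 := by
      rw [← map_natCast (Ideal.Quotient.mk v.asIdeal)]
      exact Ideal.Quotient.eq_zero_iff_mem.2 hp
    exact ringChar.of_eq (CharP.ringChar_of_prime_eq_zero (below v).prop h0)
  have hchar2 : ringChar (𝓞 K ⧸ v.asIdeal) ≠ 2 := by
    intro h
    apply h2
    rw [← Ideal.Quotient.eq_zero_iff_mem]
    have h3 : ((2 : ℕ) : 𝓞 K ⧸ v.asIdeal) = 0 := by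
      rw [← h]
      exact ringChar.Nat.cast_ringChar
    rw [map_ofNat]
    exact_mod_cast h3
  have h27F : (27 : 𝓞 K ⧸ v.asIdeal) ≠ 0 := by
    intro h
    apply h27
    rw [← Ideal.Quotient.eq_zero_iff_mem, map_ofNat]
    exact h
  refine ⟨𝓞 K ⧸ v.asIdeal, inferInstance, inferInstance, Classical.decEq _, Ideal.Quotient.mk v.asIdeal,
    Ideal.Quotient.mk_surjective, Ideal.mk_ker, hchar2, hchar, hcard, h27F, fun C => ?_⟩
  have hgood : Good C v ↔ ¬ BP.dis (mapC (Ideal.Quotient.mk v.asIdeal) C) = 0 := by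
    unfold Good
    rw [mapC_dis, Ideal.Quotient.eq_zero_iff_mem, disc_eq]
    constructor
    · intro h h3
      exact h (Ideal.mul_mem_left _ _ h3)
    · intro h h3
      rcases v.isPrime.mem_or_mem h3 with h4 | h4
      · exact h2 h4
      · exact h h4
  have hq0 : (0 : ℝ) < Fintype.card (𝓞 K ⧸ v.asIdeal) := by exact_mod_cast Fintype.card_pos
  have hpts : (points C v : ℝ) = Fintype.card (𝓞 K ⧸ v.asIdeal) + BP.SS (mapC (Ideal.Quotient.mk v.asIdeal) C) := by
    unfold points
    exact card_affine hchar2 (fun x => x ^ 3 + (Ideal.Quotient.mk v.asIdeal) C.1 * x ^ 2 +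
      (Ideal.Quotient.mk v.asIdeal) C.2.1 * x + (Ideal.Quotient.mk v.asIdeal) C.2.2)
  unfold hv locF
  by_cases hg : Good C v
  · rw [if_pos hg, if_neg (hgood.1 hg), hpts, ← hcard]
    congr 1
    field_simp
    ring
  · rw [if_neg hg, if_pos (not_not.1 fun h => hg (hgood.2 h))]

/-- the local values as a function of the coordinates -/
noncomputable def hvn {r d : ℕ} (b : Fin d → 𝓞 K) (N : Fin (r + 3) → Fin d → ℤ) (v : HeightOneSpectrum (𝓞 K)) (n : Fin ((r + 3) * d) → ℕ) : ℝ :=
  hv v (family r (combine b (fun i j => N i j + n (finProdFinEquiv (i, j)))))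

/-- the local second moments -/
theorem hv_sq (r : ℕ) (hr : r ≤ 2) : ∃ C : ℝ, 0 ≤ C ∧ ∀ (K : Type) [Field K] [NumberField K] (v : HeightOneSpectrum (𝓞 K)),
    5 ≤ (below v : ℕ) → ∀ (d : ℕ) (b : Fin d → 𝓞 K), (∀ x : 𝓞 K, ∃ a : Fin d → ℤ, x = ∑ j, (a j : 𝓞 K) * b j) →
    ∀ N : Fin (r + 3) → Fin d → ℤ,
    |mean ((r + 3) * d) (below v : ℕ) (fun n => hvn b N v n ^ 2) - 1 / Ideal.absNorm v.asIdeal| ≤
      C / (Ideal.absNorm v.asIdeal : ℝ) ^ (3 / 2 : ℝ) := by
  obtain ⟨C, hC0, hC⟩ := loc_sq r hr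
  refine ⟨C, hC0, ?_⟩
  intro K _ _ v h5 d b hb N
  obtain ⟨F, _, _, _, π, hπ, -, hF, hch, hcard, h27F, hval⟩ := hv_eq2 v h5
  have : Fact (below v : ℕ).Prime := ⟨(below v).prop⟩
  have h1 := hC F hF h27F
  have h3 := mean_red (below v : ℕ) π hπ b hb N (fun t : Fin (r + 3) → F => locF (BP.fam r t) ^ 2)
  rw [← h3, hcard] at h1
  refine le_trans (le_of_eq ?_) h1
  congr 3
  funext n
  unfold hvn
  rw [hval, family_eq, mapC_fam]
  rfl

/-- independence of the values at two primes over `p` -/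
theorem hv_indep (r d : ℕ) (b : Fin d → 𝓞 K) (hb : ∀ x : 𝓞 K, ∃ a : Fin d → ℤ, x = ∑ j, (a j : 𝓞 K) * b j)
    (N : Fin (r + 3) → Fin d → ℤ) (v w : HeightOneSpectrum (𝓞 K)) (hvw : v ≠ w) (h5 : 5 ≤ (below v : ℕ)) (hbelow : (below w : ℕ) = below v) :
    mean ((r + 3) * d) (below v : ℕ) (fun n => hvn b N v n * hvn b N w n) =
      mean ((r + 3) * d) (below v : ℕ) (hvn b N v) * mean ((r + 3) * d) (below v : ℕ) (hvn b N w) := by
  obtain ⟨F, _, _, _, π, hπ, hker, hF, hch, hcard, h27F, hval⟩ := hv_eq2 v h5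
  obtain ⟨F', _, _, _, π', hπ', hker', hF', hch', hcard', h27F', hval'⟩ := hv_eq2 w (by rw [hbelow]; exact h5)
  rw [hbelow] at hch'
  have : Fact (below v : ℕ).Prime := ⟨(below v).prop⟩
  have hmax : v.asIdeal.IsMaximal := v.isPrime.isMaximal v.ne_bot
  have hmax' : w.asIdeal.IsMaximal := w.isPrime.isMaximal w.ne_bot
  have hcop : IsCoprime v.asIdeal w.asIdeal := Ideal.isCoprime_of_isMaximal fun h => hvw (HeightOneSpectrum.ext h)
  rw [Ideal.isCoprime_iff_exists] at hcop
  obtain ⟨a, ha, c, hc, hac⟩ := hcop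
  rw [← hker, RingHom.mem_ker] at ha
  rw [← hker', RingHom.mem_ker] at hc
  have h1 := mean_red2 (below v : ℕ) π π' (fun x y => ⟨x * c + y * a, by
      have h2 : c = 1 - a := by rw [← hac]; ring
      rw [map_add, map_mul, map_mul, ha, h2, map_sub, map_one, ha]
      ring, by
      have h2 : a = 1 - c := by rw [← hac]; ring
      rw [map_add, map_mul, map_mul, hc, h2, map_sub, map_one, hc]
      ring⟩) hπ hπ' b hb N (fun t : Fin (r + 3) → F => locF (BP.fam r t)) (fun t : Fin (r + 3) → F' => locF (BP.fam r t))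
  have e1 : ∀ n, hvn b N v n = locF (BP.fam r (fun i => π (elt b (fun i j => N i j + n (finProdFinEquiv (i, j))) i))) := by
    intro n
    unfold hvn
    rw [hval, family_eq, mapC_fam]
    rfl
  have e2 : ∀ n, hvn b N w n = locF (BP.fam r (fun i => π' (elt b (fun i j => N i j + n (finProdFinEquiv (i, j))) i))) := by
    intro n
    unfold hvn
    rw [hval', family_eq, mapC_fam]
    rfl
  have e3 : (fun n => hvn b N v n * hvn b N w n) = fun n => locF (BP.fam r (fun i => π (elt b (fun i j => N i j + n (finProdFinEquiv (i, j))) i))) *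
      locF (BP.fam r (fun i => π' (elt b (fun i j => N i j + n (finProdFinEquiv (i, j))) i))) := by
    funext n
    rw [e1, e2]
  rw [e3, funext e1, funext e2]
  exact h1

end

end Q282.LD
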