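import Pool.Agent.Q282.FF.Mt2

/-!
# Large deviations of sums with the moments of independent sums
-/

set_option autoImplicit false
set_option linter.unusedSectionVars false

namespace Q282.LD

open Finset
open Q282.CL

/-- the polynomials approximating the exponential function -/
noncomputable def Q (N : ℕ) (x : ℝ) : ℝ := (1 + x / (2 * N)) ^ (2 * N)

lemma Q_nonneg (N : ℕ) (x : ℝ) : 0 ≤ Q N x := by
  unfold Q
  rw [pow_mul]
  positivity

lemma one_le_Q {N : ℕ} {x : ℝ} (hx : 0 ≤ x) : 1 ≤ Q N x := by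
  unfold Q
  refine one_le_pow₀ ?_
  have : 0 ≤ x / (2 * N) := by positivity
  linarith

lemma Q_mono {N : ℕ} {x y : ℝ} (hx : 0 ≤ x) (hxy : x ≤ y) : Q N x ≤ Q N y := by
  unfold Q
  refine pow_le_pow_left₀ (by positivity) ?_ _
  have : x / (2 * N) ≤ y / (2 * N) := div_le_div_of_nonneg_right hxy (by positivity)
  linarith

lemma Q_le_exp {N : ℕ} (hN : 1 ≤ N) {x : ℝ} (hx : 0 ≤ x) : Q N x ≤ Real.exp x := by
  have hN0 : (0 : ℝ) < N := by exact_mod_cast hN
  unfold Q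
  calc (1 + x / (2 * N)) ^ (2 * N) ≤ Real.exp (x / (2 * N)) ^ (2 * N) := by
        refine pow_le_pow_left₀ (by positivity) ?_ _
        rw [add_comm]
        exact Real.add_one_le_exp _
    _ = Real.exp x := by
        rw [← Real.exp_nat_mul]
        congr 1
        push_cast
        field_simp

/-- upper bound for the polynomials -/
lemma Q_le {N : ℕ} (hN : 1 ≤ N) (x : ℝ) : Q N x ≤ Real.exp x + Real.exp (-(4 * N)) * Real.exp (-x) := by
  have hN0 : (0 : ℝ) < N := by exact_mod_cast hN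
  have key : ∀ y : ℝ, 0 ≤ 1 + y → (1 + y) ^ (2 * N) ≤ Real.exp (2 * N * y) := by
    intro y hy
    calc (1 + y) ^ (2 * N) ≤ Real.exp y ^ (2 * N) := by
          refine pow_le_pow_left₀ hy ?_ _
          rw [add_comm]
          exact Real.add_one_le_exp _
      _ = Real.exp (2 * N * y) := by
          rw [← Real.exp_nat_mul]
          congr 1
          push_cast
          ring
  unfold Q
  obtain ⟨u, hu⟩ : ∃ u : ℝ, u = x / (2 * N) := ⟨_, rfl⟩
  have hx : x = 2 * N * u := by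
    rw [hu]
    field_simp
  rw [← hu]
  rcases le_total 0 (1 + u) with h | h
  · have h1 := key u h
    rw [← hx] at h1
    have h2 : 0 < Real.exp (-(4 * N)) * Real.exp (-x) := by positivity
    linarith
  · have h1 := key (-u - 2) (by linarith)
    have h2 : (1 + (-u - 2)) ^ (2 * N) = (1 + u) ^ (2 * N) := by
      rw [pow_mul, pow_mul]
      congr 1
      ring
    have h3 : 2 * (N : ℝ) * (-u - 2) = -(4 * N) + -x := by
      rw [hx]
      ring
    rw [h2, h3, Real.exp_add] at h1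
    linarith [Real.exp_pos x]

lemma exp_le_Q {N : ℕ} (hN : 1 ≤ N) {x : ℝ} (hx : x ^ 2 ≤ N) : Real.exp x ≤ 3 * Q N x := exp_le_pow hN hx

section

variable {α : Type} [Fintype α] [Nonempty α]

/-- lower bound for the exponential moment -/
lemma le_av_exp (Z : α → ℝ) (h0 : av Z = 0) {b : ℝ} (hb : ∀ a, |Z a| ≤ b) :
    Real.exp (av (fun a => Z a ^ 2) / 2 - (b ^ 3 * Real.exp b + b ^ 4)) ≤ av (fun a => Real.exp (Z a)) := by
  have hb0 : 0 ≤ b := by
    obtain ⟨a⟩ : Nonempty α := inferInstance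
    exact (abs_nonneg _).trans (hb a)
  obtain ⟨v, hv⟩ : ∃ v : ℝ, v = av (fun a => Z a ^ 2) := ⟨_, rfl⟩
  have hvb : v ≤ b ^ 2 := by
    rw [hv]
    refine (av_mono (g := fun _ => b ^ 2) fun a => ?_).trans (le_of_eq (av_const _))
    rw [← sq_abs]
    exact pow_le_pow_left₀ (abs_nonneg _) (hb a) 2
  obtain ⟨e, he⟩ : ∃ e : ℝ, e = b ^ 3 * Real.exp b := ⟨_, rfl⟩
  have he0 : 0 ≤ e := by rw [he]; positivity
  rw [← hv, ← he]
  have hone : 1 ≤ av (fun a => Real.exp (Z a)) := by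
    have h1 : av (fun a => (1 : ℝ) + Z a) ≤ av (fun a => Real.exp (Z a)) := av_mono fun a => by
      rw [add_comm]
      exact Real.add_one_le_exp _
    rw [av_add, av_const, h0, add_zero] at h1
    exact h1
  rcases le_total (v / 2 - e) 0 with h | h
  · have h1 : Real.exp (v / 2 - (e + b ^ 4)) ≤ 1 := Real.exp_le_one_iff.2 (by
      have : 0 ≤ b ^ 4 := by positivity
      linarith)
    linarith
  · have h1 : ∀ a, (1 - e) + (Z a + (1 / 2) * Z a ^ 2) ≤ Real.exp (Z a) := by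
      intro a
      have h2 := Complex.norm_exp_sub_sum_le_norm_mul_exp (Z a : ℂ) 3
      rw [sum_range_succ, sum_range_succ, sum_range_one] at h2
      simp only [pow_zero, Nat.factorial_zero, Nat.cast_one, div_one, pow_one, Nat.factorial_one, Nat.factorial_two,
        Complex.norm_real, Real.norm_eq_abs] at h2
      have e1 : Complex.exp (Z a : ℂ) - (1 + (Z a : ℂ) + (Z a : ℂ) ^ 2 / ((2 : ℕ) : ℂ)) = ((Real.exp (Z a) - (1 + Z a + Z a ^ 2 / 2) : ℝ) : ℂ) := by
        push_cast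
        rfl
      rw [e1, Complex.norm_real, Real.norm_eq_abs] at h2
      have h3 : |Z a| ^ 3 * Real.exp |Z a| ≤ e := by
        rw [he]
        exact mul_le_mul (pow_le_pow_left₀ (abs_nonneg _) (hb a) 3) (Real.exp_le_exp.2 (hb a)) (Real.exp_pos _).le (by positivity)
      have h4 := neg_abs_le (Real.exp (Z a) - (1 + Z a + Z a ^ 2 / 2))
      linarith
    have h2 := av_mono h1
    rw [av_add, av_const, av_add, av_mul, h0, ← hv] at h2
    obtain ⟨u, hu⟩ : ∃ u : ℝ, u = v / 2 - e := ⟨_, rfl⟩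
    rw [← hu] at h
    have h3 : Real.exp (u - b ^ 4) ≤ 1 + u := by
      have h4 := Real.one_sub_inv_le_log_of_pos (by linarith : 0 < 1 + u)
      have h5 : u - u ^ 2 ≤ Real.log (1 + u) := by
        refine le_trans ?_ h4
        have e2 : 1 - (1 + u)⁻¹ = u - u ^ 2 / (1 + u) := by
          field_simp
          ring
        rw [e2]
        have h6 : u ^ 2 / (1 + u) ≤ u ^ 2 := div_le_self (sq_nonneg _) (by linarith)
        linarith
      have h6 : u ^ 2 ≤ b ^ 4 := by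
        have h7 : u ≤ b ^ 2 := by
          rw [hu]
          have : 0 ≤ b ^ 2 := sq_nonneg _
          linarith
        calc u ^ 2 ≤ (b ^ 2) ^ 2 := pow_le_pow_left₀ h h7 2
          _ = b ^ 4 := by ring
      calc Real.exp (u - b ^ 4) ≤ Real.exp (Real.log (1 + u)) := Real.exp_le_exp.2 (by linarith)
        _ = 1 + u := Real.exp_log (by linarith)
    have h4 : v / 2 - (e + b ^ 4) = u - b ^ 4 := by rw [hu]; ring
    rw [h4]
    linarith

variable {ι : Type} [Fintype ι] [DecidableEq ι] {Ω : ι → Type} [∀ i, Fintype (Ω i)] [∀ i, Nonempty (Ω i)]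

/-- lower bound for the exponential moment of a sum of independent functions -/
lemma le_av_exp_sum (Z : ∀ i, Ω i → ℝ) (h0 : ∀ i, av (Z i) = 0) {b : ι → ℝ} (hb : ∀ i a, |Z i a| ≤ b i) :
    Real.exp (∑ i, (av (fun a => Z i a ^ 2) / 2 - (b i ^ 3 * Real.exp (b i) + b i ^ 4))) ≤
      av (fun ω : ∀ i, Ω i => Real.exp (∑ i, Z i (ω i))) := by
  have h1 : (fun ω : ∀ i, Ω i => Real.exp (∑ i, Z i (ω i))) = fun ω => ∏ i, Real.exp (Z i (ω i)) := by
    funext ω
    rw [Real.exp_sum]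
  rw [h1, av_pi (fun i a => Real.exp (Z i a)), Real.exp_sum]
  exact prod_le_prod (fun i _ => (Real.exp_pos _).le) fun i _ => le_av_exp (Z i) (h0 i) (hb i)

/-- comparison of the means of polynomials -/
lemma poly_transfer (z : ι → α → ℝ) (Z : ∀ i, Ω i → ℝ) {η c : ℝ} {m₁ m₂ : ℕ} (hη : 0 ≤ η) (hc : (Fintype.card ι : ℝ) ≤ c)
    (h : ∀ m ≤ m₁ + m₂, ∀ τ : Fin m → ι, |av (fun a => ∏ j, z (τ j) a) - av (fun ω : ∀ i, Ω i => ∏ j, Z (τ j) (ω (τ j)))| ≤ η)
    (p β q : ℝ) :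
    |av (fun a => (1 + p * ∑ i, z i a) ^ m₁ * (β + q * ∑ i, z i a) ^ m₂) -
      av (fun ω : ∀ i, Ω i => (1 + p * ∑ i, Z i (ω i)) ^ m₁ * (β + q * ∑ i, Z i (ω i)) ^ m₂)| ≤
      (1 + |p| * c) ^ m₁ * (|β| + |q| * c) ^ m₂ * η := by
  have hc0 : 0 ≤ c := (Nat.cast_nonneg _).trans hc
  have hmom : ∀ m ≤ m₁ + m₂, |av (fun a => (∑ i, z i a) ^ m) - av (fun ω : ∀ i, Ω i => (∑ i, Z i (ω i)) ^ m)| ≤ c ^ m * η := by
    intro m hm
    exact (mom_transfer z Z (h m hm)).trans (mul_le_mul_of_nonneg_right (pow_le_pow_left₀ (Nat.cast_nonneg _) hc m) hη)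
  have hexp : ∀ {κ : Type} [Fintype κ] (y : κ → ℝ), av (fun a => (1 + p * y a) ^ m₁ * (β + q * y a) ^ m₂) =
      ∑ i ∈ range (m₁ + 1), ∑ j ∈ range (m₂ + 1), (p ^ i * (m₁.choose i : ℝ) * (q ^ j * β ^ (m₂ - j) * (m₂.choose j : ℝ))) *
        av (fun a => y a ^ (i + j)) := by
    intro κ _ y
    have h1 : (fun a => (1 + p * y a) ^ m₁ * (β + q * y a) ^ m₂) = fun a => ∑ i ∈ range (m₁ + 1), ∑ j ∈ range (m₂ + 1),
        (p ^ i * (m₁.choose i : ℝ) * (q ^ j * β ^ (m₂ - j) * (m₂.choose j : ℝ))) * y a ^ (i + j) := by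
      funext a
      rw [add_comm (1 : ℝ), add_comm β, add_pow, add_pow, sum_mul_sum]
      refine sum_congr rfl fun i _ => sum_congr rfl fun j _ => ?_
      rw [one_pow, mul_pow, mul_pow, pow_add]
      ring
    rw [h1, av_sum]
    refine sum_congr rfl fun i _ => ?_
    rw [av_sum]
    exact sum_congr rfl fun j _ => av_mul _ _
  rw [hexp, hexp, ← sum_sub_distrib]
  refine (abs_sum_le_sum_abs _ _).trans ?_
  have h2 : ∀ i ∈ range (m₁ + 1), |∑ j ∈ range (m₂ + 1), (p ^ i * (m₁.choose i : ℝ) * (q ^ j * β ^ (m₂ - j) * (m₂.choose j : ℝ))) *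
        av (fun a => (∑ i, z i a) ^ (i + j)) - ∑ j ∈ range (m₂ + 1), (p ^ i * (m₁.choose i : ℝ) * (q ^ j * β ^ (m₂ - j) * (m₂.choose j : ℝ))) *
        av (fun ω : ∀ i, Ω i => (∑ i, Z i (ω i)) ^ (i + j))| ≤
      ∑ j ∈ range (m₂ + 1), ((|p| * c) ^ i * (m₁.choose i : ℝ)) * (((|q| * c) ^ j * |β| ^ (m₂ - j) * (m₂.choose j : ℝ))) * η := by
    intro i hi
    rw [← sum_sub_distrib]
    refine (abs_sum_le_sum_abs _ _).trans (sum_le_sum fun j hj => ?_)
    rw [mem_range] at hi hj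
    rw [← mul_sub, abs_mul]
    have h3 := hmom (i + j) (by omega)
    have h4 : |p ^ i * (m₁.choose i : ℝ) * (q ^ j * β ^ (m₂ - j) * (m₂.choose j : ℝ))| =
        |p| ^ i * (m₁.choose i : ℝ) * (|q| ^ j * |β| ^ (m₂ - j) * (m₂.choose j : ℝ)) := by
      rw [abs_mul, abs_mul, abs_mul, abs_mul, abs_pow, abs_pow, abs_pow, Nat.abs_cast, Nat.abs_cast]
    rw [h4]
    refine (mul_le_mul_of_nonneg_left h3 (by positivity)).trans (le_of_eq ?_)
    rw [mul_pow, mul_pow, pow_add]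
    ring
  refine (sum_le_sum h2).trans (le_of_eq ?_)
  have e1 : (1 + |p| * c) ^ m₁ = ∑ i ∈ range (m₁ + 1), (|p| * c) ^ i * (m₁.choose i : ℝ) := by
    rw [add_comm, add_pow]
    refine sum_congr rfl fun i _ => ?_
    rw [one_pow, mul_one]
  have e2 : (|β| + |q| * c) ^ m₂ = ∑ j ∈ range (m₂ + 1), (|q| * c) ^ j * |β| ^ (m₂ - j) * (m₂.choose j : ℝ) := by
    rw [add_comm, add_pow]
  rw [e1, e2, sum_mul_sum, sum_mul]
  refine sum_congr rfl fun i _ => ?_
  rw [sum_mul]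

end

end Q282.LD
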