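import Pool.Agent.Q282.LD.Two
import Pool.Agent.Q282.CL.Lim

/-!
# Large deviations of sums of periodic functions over boxes
-/

set_option autoImplicit false
set_option linter.unusedSectionVars false

namespace Q282.LD

open Finset Filter
open Q282.CL
open Q282.BP (bx mem_bx card_bx PP loglog_tendsto)
open Pool.Agent.TH894.NE (box mem_box card_box Per mean mean_mul mean_mono mean_add mean_const)

section

variable {d : ℕ}

/-- the centred function -/
noncomputable def zc (g : ℕ → (Fin d → ℕ) → ℝ) (p : ℕ) (n : Fin d → ℕ) : ℝ := g p n - mean d p (g p)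

/-- the variance -/
noncomputable def vr (g : ℕ → (Fin d → ℕ) → ℝ) (p : ℕ) : ℝ := mean d p (fun n => g p n ^ 2) - mean d p (g p) ^ 2

variable {g : ℕ → (Fin d → ℕ) → ℝ} {B : ℝ}

lemma zc_per {p : ℕ} (h : Per p (g p)) : Per p (zc g p) := by
  intro n
  unfold zc
  rw [← h n]

lemma zc_mean {p : ℕ} (hp : p.Prime) : mean d p (zc g p) = 0 := by
  have e : zc g p = fun n => g p n + (-(mean d p (g p))) := by
    funext n
    unfold zc
    ring
  rw [e, mean_add, mean_const _ p hp.one_lt.le, add_neg_cancel]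

lemma mean_abs {p : ℕ} (hp : p.Prime) {C : ℝ} (h : ∀ n, |g p n| ≤ C) : |mean d p (g p)| ≤ C := by
  rw [abs_le]
  constructor
  · have h1 := mean_mono (d := d) (q := p) (F := fun _ => -C) (G := g p) fun n => (abs_le.1 (h n)).1
    rw [mean_const _ p hp.one_lt.le] at h1
    exact h1
  · have h1 := mean_mono (d := d) (q := p) (F := g p) (G := fun _ => C) fun n => (abs_le.1 (h n)).2
    rw [mean_const _ p hp.one_lt.le] at h1
    exact h1

lemma zc_le {p : ℕ} (hp : p.Prime) (h : ∀ n, |g p n| ≤ B / Real.sqrt p) (n : Fin d → ℕ) : |zc g p n| ≤ 2 * B / Real.sqrt p := by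
  have h1 := mean_abs hp h
  have h2 := h n
  have h3 := abs_sub (g p n) (mean d p (g p))
  unfold zc
  have h4 : 2 * B / Real.sqrt p = B / Real.sqrt p + B / Real.sqrt p := by ring
  linarith

lemma zc_sq {p : ℕ} (hp : p.Prime) : mean d p (fun n => zc g p n ^ 2) = vr g p := by
  have e : (fun n => zc g p n ^ 2) = fun n => g p n ^ 2 + ((-(2 * mean d p (g p))) * g p n + mean d p (g p) ^ 2) := by
    funext n
    unfold zc
    ring
  rw [e, mean_add, mean_add, mean_mul, mean_const _ p hp.one_lt.le]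
  unfold vr
  ring

/-- the exponential moments of the model -/
lemma exp_up {C₀ : ℝ} (hC₀ : ∀ S : Finset ℕ, (∀ p ∈ S, p.Prime) → ∑ p ∈ S, 1 / (Real.sqrt p) ^ 3 ≤ C₀) (hB : 0 < B) (X : ℕ)
    (hgB : ∀ p : ℕ, p.Prime → ∀ n, |g p n| ≤ B / Real.sqrt p) {l Λ : ℝ} (hl : |l| ≤ Λ) :
    av (fun ω : ∀ p : PP X, box d p => Real.exp (l * ∑ p : PP X, zc g p (ω p))) ≤
      Real.exp (l ^ 2 / 2 * ∑ p ∈ PP X, vr g p + C₀ * ((2 * Λ * B) ^ 3 * Real.exp (2 * Λ * B))) := by
  classical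
  have hprime : ∀ p ∈ PP X, p.Prime := fun p hp => (mem_filter.1 hp).2
  have hΛ : 0 ≤ Λ := (abs_nonneg l).trans hl
  have hne : ∀ p : PP X, Nonempty (box d p) := box_nonempty hprime
  have h1 := av_exp_sum_le' (ι := PP X) (Ω := fun p : PP X => box d p) (fun p n => l * zc g p n) (fun p => by
    rw [av_mul, av_box (zc g p), zc_mean (hprime p p.2), mul_zero]) (b := fun p => 2 * Λ * B / Real.sqrt (p : ℕ)) (fun p n => by
    rw [abs_mul]
    have h2 := zc_le (hprime p p.2) (hgB p (hprime p p.2)) n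
    calc |l| * |zc g p n| ≤ Λ * (2 * B / Real.sqrt (p : ℕ)) := mul_le_mul hl h2 (abs_nonneg _) hΛ
      _ = _ := by ring)
  have e1 : (fun ω : ∀ p : PP X, box d p => Real.exp (l * ∑ p : PP X, zc g p (ω p))) =
      fun ω => Real.exp (∑ p : PP X, l * zc g p (ω p)) := by
    funext ω
    rw [mul_sum]
  rw [e1]
  refine h1.trans (Real.exp_le_exp.2 ?_)
  rw [sum_add_distrib]
  refine add_le_add ?_ ?_
  · have e2 : ∀ p : PP X, av (fun n : box d p => (l * zc g p n) ^ 2) / 2 = l ^ 2 / 2 * vr g p := by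
      intro p
      have e3 : (fun n : box d p => (l * zc g p n) ^ 2) = fun n : box d p => l ^ 2 * (zc g p n) ^ 2 := by
        funext n
        ring
      rw [e3, av_mul, av_box (fun n => zc g p n ^ 2), zc_sq (hprime p p.2)]
      ring
    rw [sum_congr rfl fun p _ => e2 p, ← mul_sum, Finset.sum_coe_sort (PP X) (fun p => vr g p)]
  · rw [Finset.sum_coe_sort (PP X) (fun p => (2 * Λ * B / Real.sqrt (p : ℕ)) ^ 3 * Real.exp (2 * Λ * B / Real.sqrt (p : ℕ)))]
    have h3 : ∀ p ∈ PP X, (2 * Λ * B / Real.sqrt (p : ℕ)) ^ 3 * Real.exp (2 * Λ * B / Real.sqrt (p : ℕ)) ≤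
        ((2 * Λ * B) ^ 3 * Real.exp (2 * Λ * B)) * (1 / Real.sqrt p ^ 3) := by
      intro p hp
      have hs : 1 ≤ Real.sqrt p := by
        rw [Real.one_le_sqrt]
        exact_mod_cast (hprime p hp).one_lt.le
      have h4 : Real.exp (2 * Λ * B / Real.sqrt p) ≤ Real.exp (2 * Λ * B) :=
        Real.exp_le_exp.2 (div_le_self (by positivity) hs)
      have h5 : 0 ≤ (2 * Λ * B / Real.sqrt p) ^ 3 := by positivity
      refine (mul_le_mul_of_nonneg_left h4 h5).trans (le_of_eq ?_)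
      rw [div_pow]
      ring
    refine (sum_le_sum h3).trans ?_
    rw [← mul_sum, mul_comm]
    exact mul_le_mul_of_nonneg_right (hC₀ _ hprime) (by positivity)

/-- lower bound for the exponential moments of the model -/
lemma exp_low {C₀ : ℝ} (hC₀ : ∀ S : Finset ℕ, (∀ p ∈ S, p.Prime) → ∑ p ∈ S, 1 / (Real.sqrt p) ^ 3 ≤ C₀) (hB : 0 < B) (X : ℕ)
    (hgB : ∀ p : ℕ, p.Prime → ∀ n, |g p n| ≤ B / Real.sqrt p) {l : ℝ} (hl : 0 ≤ l) :
    Real.exp (l ^ 2 / 2 * ∑ p ∈ PP X, vr g p - C₀ * ((2 * l * B) ^ 3 * Real.exp (2 * l * B) + (2 * l * B) ^ 4)) ≤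
    av (fun ω : ∀ p : PP X, box d p => Real.exp (l * ∑ p : PP X, zc g p (ω p))) := by
  classical
  have hprime : ∀ p ∈ PP X, p.Prime := fun p hp => (mem_filter.1 hp).2
  have hne : ∀ p : PP X, Nonempty (box d p) := box_nonempty hprime
  have h1 := le_av_exp_sum (ι := PP X) (Ω := fun p : PP X => box d p) (fun p n => l * zc g p n) (fun p => by
    rw [av_mul, av_box (zc g p), zc_mean (hprime p p.2), mul_zero]) (b := fun p => 2 * l * B / Real.sqrt (p : ℕ)) (fun p n => by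
    rw [abs_mul, abs_of_nonneg hl]
    have h2 := zc_le (hprime p p.2) (hgB p (hprime p p.2)) n
    calc l * |zc g p n| ≤ l * (2 * B / Real.sqrt (p : ℕ)) := mul_le_mul_of_nonneg_left h2 hl
      _ = _ := by ring)
  have e1 : (fun ω : ∀ p : PP X, box d p => Real.exp (l * ∑ p : PP X, zc g p (ω p))) =
      fun ω => Real.exp (∑ p : PP X, l * zc g p (ω p)) := by
    funext ω
    rw [mul_sum]
  rw [e1]
  refine le_trans (Real.exp_le_exp.2 ?_) h1
  rw [sum_sub_distrib]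
  refine sub_le_sub ?_ ?_
  · have e2 : ∀ p : PP X, av (fun n : box d p => (l * zc g p n) ^ 2) / 2 = l ^ 2 / 2 * vr g p := by
      intro p
      have e3 : (fun n : box d p => (l * zc g p n) ^ 2) = fun n : box d p => l ^ 2 * (zc g p n) ^ 2 := by
        funext n
        ring
      rw [e3, av_mul, av_box (fun n => zc g p n ^ 2), zc_sq (hprime p p.2)]
      ring
    rw [sum_congr rfl fun p _ => e2 p, ← mul_sum, Finset.sum_coe_sort (PP X) (fun p => vr g p)]
  · rw [Finset.sum_coe_sort (PP X) (fun p => (2 * l * B / Real.sqrt (p : ℕ)) ^ 3 * Real.exp (2 * l * B / Real.sqrt (p : ℕ)) +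
      (2 * l * B / Real.sqrt (p : ℕ)) ^ 4)]
    have h3 : ∀ p ∈ PP X, (2 * l * B / Real.sqrt (p : ℕ)) ^ 3 * Real.exp (2 * l * B / Real.sqrt (p : ℕ)) + (2 * l * B / Real.sqrt (p : ℕ)) ^ 4 ≤
        ((2 * l * B) ^ 3 * Real.exp (2 * l * B) + (2 * l * B) ^ 4) * (1 / Real.sqrt p ^ 3) := by
      intro p hp
      have hs : 1 ≤ Real.sqrt p := by
        rw [Real.one_le_sqrt]
        exact_mod_cast (hprime p hp).one_lt.le
      have h4 : Real.exp (2 * l * B / Real.sqrt p) ≤ Real.exp (2 * l * B) :=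
        Real.exp_le_exp.2 (div_le_self (by positivity) hs)
      have h5 : 0 ≤ (2 * l * B / Real.sqrt p) ^ 3 := by positivity
      have h6 : (2 * l * B / Real.sqrt p) ^ 3 * Real.exp (2 * l * B / Real.sqrt p) ≤ (2 * l * B) ^ 3 * Real.exp (2 * l * B) * (1 / Real.sqrt p ^ 3) := by
        refine (mul_le_mul_of_nonneg_left h4 h5).trans (le_of_eq ?_)
        rw [div_pow]
        ring
      have h7 : (2 * l * B / Real.sqrt p) ^ 4 ≤ (2 * l * B) ^ 4 * (1 / Real.sqrt p ^ 3) := by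
        rw [div_pow, div_eq_mul_one_div]
        refine mul_le_mul_of_nonneg_left ?_ (by positivity)
        exact one_div_le_one_div_of_le (by positivity) (pow_le_pow_right₀ hs (by norm_num))
      rw [add_mul]
      linarith
    refine (sum_le_sum h3).trans ?_
    rw [← mul_sum, mul_comm]
    exact mul_le_mul_of_nonneg_right (hC₀ _ hprime) (by positivity)

/-- closeness of the monomials -/
lemma close (X N : ℕ) (hX : 1 ≤ X) (hgP : ∀ p : ℕ, p.Prime → Per p (g p)) {C T : ℝ} (hC : 1 ≤ C) (hgC : ∀ p : ℕ, p.Prime → ∀ n, |zc g p n| ≤ C)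
    (hT0 : 0 < T) {L : Fin d → ℕ} (hL : ∀ i, T ≤ L i) : ∀ m ≤ 4 * N, ∀ τ : Fin m → PP X,
    |av (fun n : bx L => ∏ j, zc g (τ j) n) - av (fun ω : ∀ p : PP X, box d p => ∏ j, zc g (τ j) (ω (τ j)))| ≤
      C ^ (4 * N) * (Real.exp (d * (X : ℝ) ^ (4 * N) / T) - 1) := by
  intro m hm τ
  have hprime : ∀ p ∈ PP X, p.Prime := fun p hp => (mem_filter.1 hp).2
  have hX1 : (1 : ℝ) ≤ X := by exact_mod_cast hX
  refine (mono_bx (S := PP X) hprime (fun p hp => zc_per (hgP p (hprime p hp))) (fun p hp n => hgC p (hprime p hp) n) (Y := X)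
    (fun p hp => (mem_Icc.1 (mem_filter.1 hp).1).2) hT0 hL τ).trans ?_
  have h1 : Real.exp (d * (X : ℝ) ^ m / T) - 1 ≤ Real.exp (d * (X : ℝ) ^ (4 * N) / T) - 1 := by
    have : (d : ℝ) * (X : ℝ) ^ m / T ≤ d * (X : ℝ) ^ (4 * N) / T :=
      div_le_div_of_nonneg_right (mul_le_mul_of_nonneg_left (pow_le_pow_right₀ hX1 hm) (Nat.cast_nonneg _)) hT0.le
    linarith [Real.exp_le_exp.2 this]
  have h2 : 0 ≤ Real.exp (d * (X : ℝ) ^ m / T) - 1 := by
    have : 0 ≤ (d : ℝ) * (X : ℝ) ^ m / T := by positivity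
    linarith [Real.one_le_exp this]
  exact mul_le_mul (pow_le_pow_right₀ hC hm) h1 h2 (by positivity)

/-- the error term -/
lemma err_one {X N : ℕ} {C T A : ℝ} (hX2 : 2 ≤ X) (hC : 1 ≤ C) (hCX : C ≤ X) (hdX : 2 * (d : ℝ) ≤ X) (hT : (X : ℝ) ^ (16 * N + 1) ≤ T)
    (hA0 : 0 ≤ A) (hA : A ≤ (X : ℝ) ^ 2) :
    A ^ (4 * N) * (C ^ (4 * N) * (Real.exp (d * (X : ℝ) ^ (4 * N) / T) - 1)) ≤ 1 := by
  have hX0 : (2 : ℝ) ≤ X := by exact_mod_cast hX2
  have hX1 : (1 : ℝ) ≤ X := by linarith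
  have hT0 : 0 < T := lt_of_lt_of_le (by positivity) hT
  have hd0 : (0 : ℝ) ≤ d := Nat.cast_nonneg _
  have hd1 : (d : ℝ) ≤ X := by linarith
  have h1 : (d : ℝ) * (X : ℝ) ^ (4 * N) / T ≤ d * (X : ℝ) ^ (4 * N) / (X : ℝ) ^ (16 * N + 1) :=
    div_le_div_of_nonneg_left (by positivity) (by positivity) hT
  have h2 : (d : ℝ) * (X : ℝ) ^ (4 * N) / (X : ℝ) ^ (16 * N + 1) ≤ 1 := by
    rw [div_le_one (by positivity)]
    calc (d : ℝ) * (X : ℝ) ^ (4 * N) ≤ X * (X : ℝ) ^ (4 * N) := mul_le_mul_of_nonneg_right hd1 (by positivity)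
      _ = (X : ℝ) ^ (4 * N + 1) := by ring
      _ ≤ (X : ℝ) ^ (16 * N + 1) := pow_le_pow_right₀ hX1 (by omega)
  have h3 := exp_sub_le (x := (d : ℝ) * (X : ℝ) ^ (4 * N) / T) (by positivity) h1 h2
  have h4 : A ^ (4 * N) ≤ (X : ℝ) ^ (8 * N) := by
    calc A ^ (4 * N) ≤ ((X : ℝ) ^ 2) ^ (4 * N) := pow_le_pow_left₀ hA0 hA _
      _ = (X : ℝ) ^ (8 * N) := by
        rw [← pow_mul]
        congr 1
        ring
  have h5 : C ^ (4 * N) ≤ (X : ℝ) ^ (4 * N) := pow_le_pow_left₀ (by linarith) hCX _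
  have h6 : 2 * ((d : ℝ) * (X : ℝ) ^ (4 * N) / (X : ℝ) ^ (16 * N + 1)) ≤ (X : ℝ) ^ (4 * N + 1) / (X : ℝ) ^ (16 * N + 1) := by
    rw [← mul_div_assoc]
    refine div_le_div_of_nonneg_right ?_ (by positivity)
    calc 2 * ((d : ℝ) * (X : ℝ) ^ (4 * N)) = (2 * d) * (X : ℝ) ^ (4 * N) := by ring
      _ ≤ X * (X : ℝ) ^ (4 * N) := mul_le_mul_of_nonneg_right hdX (by positivity)
      _ = _ := by ring
  have h7 : 0 ≤ Real.exp (d * (X : ℝ) ^ (4 * N) / T) - 1 := by
    have : 0 ≤ (d : ℝ) * (X : ℝ) ^ (4 * N) / T := by positivity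
    linarith [Real.one_le_exp this]
  calc A ^ (4 * N) * (C ^ (4 * N) * (Real.exp (d * (X : ℝ) ^ (4 * N) / T) - 1)) ≤
      (X : ℝ) ^ (8 * N) * ((X : ℝ) ^ (4 * N) * ((X : ℝ) ^ (4 * N + 1) / (X : ℝ) ^ (16 * N + 1))) := by
        refine mul_le_mul h4 ?_ (by positivity) (by positivity)
        exact mul_le_mul h5 (h3.trans h6) h7 (by positivity)
    _ = (X : ℝ) ^ (16 * N + 1) / (X : ℝ) ^ (16 * N + 1) := by
        rw [← mul_div_assoc, ← mul_div_assoc, ← pow_add, ← pow_add]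
        congr 2
        ring
    _ = 1 := div_self (by positivity)

end

end Q282.LD
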