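import Pool.Agent.Q282.LD.Abs

/-!
# Large deviations: the two inequalities
-/

set_option autoImplicit false
set_option linter.unusedSectionVars false

namespace Q282.LD

open Finset
open Q282.CL

lemma three_Q {N : ℕ} (hN : 1 ≤ N) (x : ℝ) : Real.exp x - Real.exp (-Real.sqrt N) * (Real.exp (2 * x) + 1) ≤ 3 * Q N x := by
  rcases le_or_gt (x ^ 2) N with h | h
  · have h1 := exp_le_Q hN h
    have h2 : 0 < Real.exp (-Real.sqrt N) * (Real.exp (2 * x) + 1) := by positivity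
    linarith
  · have h0 : 0 ≤ Q N x := Q_nonneg N x
    have h1 : Real.sqrt N < |x| := by
      rw [← Real.sqrt_sq_eq_abs]
      exact Real.sqrt_lt_sqrt (Nat.cast_nonneg _) h
    have h2 : Real.exp x ≤ Real.exp (-Real.sqrt N) * (Real.exp (2 * x) + 1) := by
      rw [mul_add, mul_one, ← Real.exp_add]
      rcases le_total 0 x with hx | hx
      · rw [abs_of_nonneg hx] at h1
        have h3 : Real.exp x ≤ Real.exp (-Real.sqrt N + 2 * x) := Real.exp_le_exp.2 (by linarith)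
        linarith [Real.exp_pos (-Real.sqrt N)]
      · rw [abs_of_nonpos hx] at h1
        have h3 : Real.exp x ≤ Real.exp (-Real.sqrt N) := Real.exp_le_exp.2 (by linarith)
        linarith [Real.exp_pos (-Real.sqrt N + 2 * x)]
    linarith

section

variable {α : Type} [Fintype α] [Nonempty α]
variable {ι : Type} [Fintype ι] [DecidableEq ι] {Ω : ι → Type} [∀ i, Fintype (Ω i)] [∀ i, Nonempty (Ω i)]

/-- comparison of the means of the polynomials -/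
lemma Q_transfer (z : ι → α → ℝ) (Z : ∀ i, Ω i → ℝ) {η c : ℝ} {N : ℕ} (hN : 1 ≤ N) (hη : 0 ≤ η) (hc : (Fintype.card ι : ℝ) ≤ c)
    (h : ∀ m ≤ 4 * N, ∀ τ : Fin m → ι, |av (fun a => ∏ j, z (τ j) a) - av (fun ω : ∀ i, Ω i => ∏ j, Z (τ j) (ω (τ j)))| ≤ η)
    {s : ℝ} (hs : 0 ≤ s) :
    |av (fun a => Q N (s * ∑ i, z i a)) - av (fun ω : ∀ i, Ω i => Q N (s * ∑ i, Z i (ω i)))| ≤ (1 + s * c) ^ (4 * N) * η := by
  have hN1 : (1 : ℝ) ≤ N := by exact_mod_cast hN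
  have hc0 : 0 ≤ c := (Nat.cast_nonneg _).trans hc
  have h1 := poly_transfer z Z (m₁ := 2 * N) (m₂ := 0) hη hc (fun m hm τ => h m (by omega) τ) (s / (2 * N)) 1 0
  have e1 : (fun a => (1 + s / (2 * N) * ∑ i, z i a) ^ (2 * N) * (1 + 0 * ∑ i, z i a) ^ 0) = fun a => Q N (s * ∑ i, z i a) := by
    funext a
    rw [pow_zero, mul_one]
    unfold Q
    congr 2
    ring
  have e2 : (fun ω : ∀ i, Ω i => (1 + s / (2 * N) * ∑ i, Z i (ω i)) ^ (2 * N) * (1 + 0 * ∑ i, Z i (ω i)) ^ 0) =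
      fun ω : ∀ i, Ω i => Q N (s * ∑ i, Z i (ω i)) := by
    funext a
    rw [pow_zero, mul_one]
    unfold Q
    congr 2
    ring
  rw [e1, e2] at h1
  refine h1.trans (mul_le_mul_of_nonneg_right ?_ hη)
  rw [pow_zero, mul_one]
  have h2 : |s / (2 * N)| * c ≤ s * c := by
    rw [abs_of_nonneg (by positivity)]
    exact mul_le_mul_of_nonneg_right (div_le_self hs (by linarith)) hc0
  have h3 : (1 + |s / (2 * N)| * c) ^ (2 * N) ≤ (1 + s * c) ^ (2 * N) := pow_le_pow_left₀ (by positivity) (by linarith) _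
  exact h3.trans (pow_le_pow_right₀ (by nlinarith [mul_nonneg hs hc0]) (by omega))

lemma QQ_transfer (z : ι → α → ℝ) (Z : ∀ i, Ω i → ℝ) {η c : ℝ} {N : ℕ} (hN : 1 ≤ N) (hη : 0 ≤ η) (hc : (Fintype.card ι : ℝ) ≤ c)
    (h : ∀ m ≤ 4 * N, ∀ τ : Fin m → ι, |av (fun a => ∏ j, z (τ j) a) - av (fun ω : ∀ i, Ω i => ∏ j, Z (τ j) (ω (τ j)))| ≤ η)
    {s l k u : ℝ} (hs : 0 ≤ s) (hl : |l| ≤ s) (hk : |k| ≤ s * u) (hu : 0 ≤ u) :
    |av (fun a => Q N (s * ∑ i, z i a) * Q N (l * ∑ i, z i a + k)) -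
      av (fun ω : ∀ i, Ω i => Q N (s * ∑ i, Z i (ω i)) * Q N (l * ∑ i, Z i (ω i) + k))| ≤ (1 + s * (c + u)) ^ (4 * N) * η := by
  have hN1 : (1 : ℝ) ≤ N := by exact_mod_cast hN
  have hc0 : 0 ≤ c := (Nat.cast_nonneg _).trans hc
  have h1 := poly_transfer z Z (m₁ := 2 * N) (m₂ := 2 * N) hη hc (fun m hm τ => h m (by omega) τ) (s / (2 * N)) (1 + k / (2 * N)) (l / (2 * N))
  have e1 : (fun a => (1 + s / (2 * N) * ∑ i, z i a) ^ (2 * N) * (1 + k / (2 * N) + l / (2 * N) * ∑ i, z i a) ^ (2 * N)) =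
      fun a => Q N (s * ∑ i, z i a) * Q N (l * ∑ i, z i a + k) := by
    funext a
    unfold Q
    congr 2 <;> ring
  have e2 : (fun ω : ∀ i, Ω i => (1 + s / (2 * N) * ∑ i, Z i (ω i)) ^ (2 * N) * (1 + k / (2 * N) + l / (2 * N) * ∑ i, Z i (ω i)) ^ (2 * N)) =
      fun ω : ∀ i, Ω i => Q N (s * ∑ i, Z i (ω i)) * Q N (l * ∑ i, Z i (ω i) + k) := by
    funext a
    unfold Q
    congr 2 <;> ring
  rw [e1, e2] at h1
  refine h1.trans (mul_le_mul_of_nonneg_right ?_ hη)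
  have h2 : |s / (2 * N)| * c ≤ s * c := by
    rw [abs_of_nonneg (by positivity)]
    exact mul_le_mul_of_nonneg_right (div_le_self hs (by linarith)) hc0
  have h3 : |1 + k / (2 * N)| ≤ 1 + s * u := by
    refine (abs_add_le _ _).trans ?_
    rw [abs_one, abs_div, abs_of_pos (by positivity : (0 : ℝ) < 2 * N)]
    have := div_le_self (abs_nonneg k) (by linarith : (1 : ℝ) ≤ 2 * N)
    linarith
  have h4 : |l / (2 * N)| * c ≤ s * c := by
    rw [abs_div, abs_of_pos (by positivity : (0 : ℝ) < 2 * N)]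
    have := div_le_self (abs_nonneg l) (by linarith : (1 : ℝ) ≤ 2 * N)
    exact mul_le_mul_of_nonneg_right (by linarith) hc0
  have hsu : 0 ≤ s * u := by positivity
  have hsc : 0 ≤ s * c := by positivity
  have h5 : (1 + |s / (2 * N)| * c) ^ (2 * N) ≤ (1 + s * (c + u)) ^ (2 * N) := pow_le_pow_left₀ (by positivity) (by linarith) _
  have h6 : (|1 + k / (2 * N)| + |l / (2 * N)| * c) ^ (2 * N) ≤ (1 + s * (c + u)) ^ (2 * N) := pow_le_pow_left₀ (by positivity) (by linarith) _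
  calc _ ≤ (1 + s * (c + u)) ^ (2 * N) * (1 + s * (c + u)) ^ (2 * N) := mul_le_mul h5 h6 (by positivity) (by positivity)
    _ = _ := by
      rw [← pow_add]
      congr 1
      ring

/-- The upper bound for large deviations. -/
theorem upper_tail (z : ι → α → ℝ) (Z : ∀ i, Ω i → ℝ) {η c : ℝ} {N : ℕ} (hN : 1 ≤ N) (hη : 0 ≤ η) (hc : (Fintype.card ι : ℝ) ≤ c)
    (h : ∀ m ≤ 4 * N, ∀ τ : Fin m → ι, |av (fun a => ∏ j, z (τ j) a) - av (fun ω : ∀ i, Ω i => ∏ j, Z (τ j) (ω (τ j)))| ≤ η)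
    {s u U : ℝ} (hs : 0 ≤ s) (hu : 0 ≤ u) (hsu : (s * u) ^ 2 ≤ N)
    (hU₁ : av (fun ω : ∀ i, Ω i => Real.exp (s * ∑ i, Z i (ω i))) ≤ U)
    (hU₂ : av (fun ω : ∀ i, Ω i => Real.exp (-s * ∑ i, Z i (ω i))) ≤ U) :
    av (fun a => if u ≤ ∑ i, z i a then (1 : ℝ) else 0) ≤ 3 * Real.exp (-(s * u)) * (2 * U + (1 + s * c) ^ (4 * N) * η) := by
  have h1 : ∀ a, (if u ≤ ∑ i, z i a then (1 : ℝ) else 0) ≤ 3 * Real.exp (-(s * u)) * Q N (s * ∑ i, z i a) := by
    intro a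
    split_ifs with h2
    · have h3 := exp_le_Q hN hsu
      have h4 : Q N (s * u) ≤ Q N (s * ∑ i, z i a) := Q_mono (by positivity) (mul_le_mul_of_nonneg_left h2 hs)
      have h5 : Real.exp (-(s * u)) * Real.exp (s * u) = 1 := by
        rw [← Real.exp_add, neg_add_cancel, Real.exp_zero]
      calc (1 : ℝ) = Real.exp (-(s * u)) * Real.exp (s * u) := h5.symm
        _ ≤ Real.exp (-(s * u)) * (3 * Q N (s * ∑ i, z i a)) := mul_le_mul_of_nonneg_left (by linarith) (Real.exp_pos _).le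
        _ = _ := by ring
    · have := Q_nonneg N (s * ∑ i, z i a)
      positivity
  refine (av_mono h1).trans ?_
  rw [av_mul]
  refine mul_le_mul_of_nonneg_left ?_ (by positivity)
  have h2 := (abs_le.1 (Q_transfer z Z hN hη hc h hs)).2
  have h3 : av (fun ω : ∀ i, Ω i => Q N (s * ∑ i, Z i (ω i))) ≤ 2 * U := by
    have h4 : ∀ ω : ∀ i, Ω i, Q N (s * ∑ i, Z i (ω i)) ≤ Real.exp (s * ∑ i, Z i (ω i)) + Real.exp (-s * ∑ i, Z i (ω i)) := by
      intro ω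
      have := pow_le_exp_add hN (s * ∑ i, Z i (ω i))
      rw [neg_mul]
      exact this
    refine (av_mono h4).trans ?_
    rw [av_add]
    linarith
  linarith

/-- the mean of a product of four exponential functions -/
lemma four_exp (Z : ∀ i, Ω i → ℝ) {s δ V E N : ℝ} (hV : 0 ≤ V) (hδ : 0 ≤ δ) (hδs : δ ≤ s) (hN : 0 ≤ N)
    (hU : ∀ l : ℝ, |l| ≤ 2 * s → av (fun ω : ∀ i, Ω i => Real.exp (l * ∑ i, Z i (ω i))) ≤ Real.exp (l ^ 2 / 2 * V + E))
    (l k K : ℝ) (hl : |l| ≤ δ) (hkK : |k| ≤ K) :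
    av (fun ω : ∀ i, Ω i => (Real.exp (s * ∑ i, Z i (ω i)) + Real.exp (-N) * Real.exp (-(s * ∑ i, Z i (ω i)))) *
      (Real.exp (l * ∑ i, Z i (ω i) + k) + Real.exp (-N) * Real.exp (-(l * ∑ i, Z i (ω i) + k)))) ≤
      Real.exp (k + (s + l) ^ 2 / 2 * V + E) + 3 * Real.exp (-N + K + (s + δ) ^ 2 / 2 * V + E) := by
  have hl' := abs_le.1 hl
  have hk' := abs_le.1 hkK
  have e : (fun ω : ∀ i, Ω i => (Real.exp (s * ∑ i, Z i (ω i)) + Real.exp (-N) * Real.exp (-(s * ∑ i, Z i (ω i)))) *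
      (Real.exp (l * ∑ i, Z i (ω i) + k) + Real.exp (-N) * Real.exp (-(l * ∑ i, Z i (ω i) + k)))) =
      fun ω => Real.exp k * Real.exp ((s + l) * ∑ i, Z i (ω i)) + (Real.exp (-N - k) * Real.exp ((s - l) * ∑ i, Z i (ω i)) +
        (Real.exp (-N + k) * Real.exp ((-(s - l)) * ∑ i, Z i (ω i)) + Real.exp (-N - N - k) * Real.exp ((-(s + l)) * ∑ i, Z i (ω i)))) := by
    funext ω
    simp only [← Real.exp_add, mul_add, add_mul]
    have e1 : s * ∑ i, Z i (ω i) + (l * ∑ i, Z i (ω i) + k) = k + (s * ∑ i, Z i (ω i) + l * ∑ i, Z i (ω i)) := by ring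
    have e2 : -N + -(s * ∑ i, Z i (ω i)) + (l * ∑ i, Z i (ω i) + k) = -N + k + -(s - l) * ∑ i, Z i (ω i) := by ring
    have e3 : s * ∑ i, Z i (ω i) + (-N + -(l * ∑ i, Z i (ω i) + k)) = -N - k + (s - l) * ∑ i, Z i (ω i) := by ring
    have e4 : -N + -(s * ∑ i, Z i (ω i)) + (-N + -(l * ∑ i, Z i (ω i) + k)) = -N - N - k + -(s + l) * ∑ i, Z i (ω i) := by ring
    rw [e1, e2, e3, e4]
    ring
  rw [e, av_add, av_add, av_add, av_mul, av_mul, av_mul, av_mul]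
  have hsq : ∀ x : ℝ, |x| ≤ s + δ → x ^ 2 / 2 * V ≤ (s + δ) ^ 2 / 2 * V := by
    intro x hx
    refine mul_le_mul_of_nonneg_right ?_ hV
    have h1 : x ^ 2 ≤ (s + δ) ^ 2 := by
      rw [← sq_abs x]
      exact pow_le_pow_left₀ (abs_nonneg _) hx 2
    linarith
  have a1 : |s + l| ≤ s + δ := abs_le.2 ⟨by linarith, by linarith⟩
  have a2 : |s - l| ≤ s + δ := abs_le.2 ⟨by linarith, by linarith⟩
  have a3 : |-(s - l)| ≤ s + δ := by rw [abs_neg]; exact a2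
  have a4 : |-(s + l)| ≤ s + δ := by rw [abs_neg]; exact a1
  have b1 := hU (s + l) (a1.trans (by linarith))
  have b2 := hU (s - l) (a2.trans (by linarith))
  have b3 := hU (-(s - l)) (a3.trans (by linarith))
  have b4 := hU (-(s + l)) (a4.trans (by linarith))
  have c1 : Real.exp k * av (fun ω : ∀ i, Ω i => Real.exp ((s + l) * ∑ i, Z i (ω i))) ≤ Real.exp (k + (s + l) ^ 2 / 2 * V + E) := by
    refine (mul_le_mul_of_nonneg_left b1 (Real.exp_pos _).le).trans (le_of_eq ?_)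
    rw [← Real.exp_add]
    congr 1
    ring
  have c2 : Real.exp (-N - k) * av (fun ω : ∀ i, Ω i => Real.exp ((s - l) * ∑ i, Z i (ω i))) ≤ Real.exp (-N + K + (s + δ) ^ 2 / 2 * V + E) := by
    refine (mul_le_mul_of_nonneg_left b2 (Real.exp_pos _).le).trans ?_
    rw [← Real.exp_add]
    refine Real.exp_le_exp.2 ?_
    have := hsq _ a2
    linarith
  have c3 : Real.exp (-N + k) * av (fun ω : ∀ i, Ω i => Real.exp ((-(s - l)) * ∑ i, Z i (ω i))) ≤ Real.exp (-N + K + (s + δ) ^ 2 / 2 * V + E) := by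
    refine (mul_le_mul_of_nonneg_left b3 (Real.exp_pos _).le).trans ?_
    rw [← Real.exp_add]
    refine Real.exp_le_exp.2 ?_
    have := hsq _ a3
    linarith
  have c4 : Real.exp (-N - N - k) * av (fun ω : ∀ i, Ω i => Real.exp ((-(s + l)) * ∑ i, Z i (ω i))) ≤ Real.exp (-N + K + (s + δ) ^ 2 / 2 * V + E) := by
    refine (mul_le_mul_of_nonneg_left b4 (Real.exp_pos _).le).trans ?_
    rw [← Real.exp_add]
    refine Real.exp_le_exp.2 ?_
    have := hsq _ a4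
    linarith
  linarith

/-- The lower bound for large deviations. -/
theorem lower_tail (z : ι → α → ℝ) (Z : ∀ i, Ω i → ℝ) {η c : ℝ} {N : ℕ} (hN : 1 ≤ N) (hη : 0 ≤ η) (hc : (Fintype.card ι : ℝ) ≤ c)
    (h : ∀ m ≤ 4 * N, ∀ τ : Fin m → ι, |av (fun a => ∏ j, z (τ j) a) - av (fun ω : ∀ i, Ω i => ∏ j, Z (τ j) (ω (τ j)))| ≤ η)
    {s δ u₁ u₂ V E : ℝ} (hδ : 0 ≤ δ) (hδs : δ ≤ s) (hu₁ : 0 ≤ u₁) (hu : u₁ ≤ u₂) (hV : 0 ≤ V)
    (hU : ∀ l : ℝ, |l| ≤ 2 * s → av (fun ω : ∀ i, Ω i => Real.exp (l * ∑ i, Z i (ω i))) ≤ Real.exp (l ^ 2 / 2 * V + E))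
    (hL : Real.exp (s ^ 2 / 2 * V - E) ≤ av (fun ω : ∀ i, Ω i => Real.exp (s * ∑ i, Z i (ω i)))) :
    1 / 3 * (Real.exp (s ^ 2 / 2 * V - E) - Real.exp (-Real.sqrt N) * (Real.exp (2 * s ^ 2 * V + E) + 1)) ≤
      Real.exp (s * u₂) * av (fun a => if u₁ ≤ ∑ i, z i a then (1 : ℝ) else 0) +
      Real.exp (δ * u₁ + (s - δ) ^ 2 / 2 * V + E) + Real.exp (-(δ * u₂) + (s + δ) ^ 2 / 2 * V + E) +
      6 * Real.exp (-(4 * N) + δ * u₂ + (s + δ) ^ 2 / 2 * V + E) + 3 * ((1 + s * (c + u₂)) ^ (4 * N) * η) := by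
  have hs : 0 ≤ s := hδ.trans hδs
  have hu₂ : 0 ≤ u₂ := hu₁.trans hu
  have hc0 : 0 ≤ c := (Nat.cast_nonneg _).trans hc
  -- the pointwise inequality
  have h1 : ∀ a, Q N (s * ∑ i, z i a) ≤ Real.exp (s * u₂) * (if u₁ ≤ ∑ i, z i a then (1 : ℝ) else 0) +
      (Q N (s * ∑ i, z i a) * Q N ((-δ) * ∑ i, z i a + δ * u₁) + Q N (s * ∑ i, z i a) * Q N (δ * ∑ i, z i a + -(δ * u₂))) := by
    intro a
    obtain ⟨S, hS⟩ : ∃ S : ℝ, S = ∑ i, z i a := ⟨_, rfl⟩
    rw [← hS]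
    have q0 := Q_nonneg N (s * S)
    have q1 := mul_nonneg q0 (Q_nonneg N ((-δ) * S + δ * u₁))
    have q2 := mul_nonneg q0 (Q_nonneg N (δ * S + -(δ * u₂)))
    have q3 := Real.exp_pos (s * u₂)
    split_ifs with h2
    · rcases le_total S u₂ with h3 | h3
      · have h4 : Q N (s * S) ≤ Real.exp (s * u₂) :=
          (Q_mono (mul_nonneg hs (hu₁.trans h2)) (mul_le_mul_of_nonneg_left h3 hs)).trans (Q_le_exp hN (by positivity))
        linarith
      · have h4 : 1 ≤ Q N (δ * S + -(δ * u₂)) := one_le_Q (by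
          have := mul_le_mul_of_nonneg_left h3 hδ
          linarith)
        have h5 := mul_le_mul_of_nonneg_left h4 q0
        linarith
    · push Not at h2
      have h4 : 1 ≤ Q N ((-δ) * S + δ * u₁) := one_le_Q (by
        have := mul_le_mul_of_nonneg_left h2.le hδ
        linarith)
      have h5 := mul_le_mul_of_nonneg_left h4 q0
      linarith
  have h2 := av_mono h1
  rw [av_add, av_add, av_mul] at h2
  -- the transfer
  obtain ⟨err, herr⟩ : ∃ err : ℝ, err = (1 + s * (c + u₂)) ^ (4 * N) * η := ⟨_, rfl⟩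
  have t1 := (abs_le.1 (Q_transfer z Z hN hη hc h hs)).1
  have t1' : (1 + s * c) ^ (4 * N) * η ≤ err := by
    rw [herr]
    refine mul_le_mul_of_nonneg_right (pow_le_pow_left₀ (by positivity) ?_ _) hη
    have : 0 ≤ s * u₂ := by positivity
    linarith
  have t2 := (abs_le.1 (QQ_transfer z Z hN hη hc h (s := s) (l := -δ) (k := δ * u₁) (u := u₂) hs (by rw [abs_neg, abs_of_nonneg hδ]; exact hδs)
    (by
      rw [abs_of_nonneg (by positivity)]
      exact mul_le_mul hδs hu hu₁ hs) hu₂)).2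
  have t3 := (abs_le.1 (QQ_transfer z Z hN hη hc h (s := s) (l := δ) (k := -(δ * u₂)) (u := u₂) hs (by rw [abs_of_nonneg hδ]; exact hδs)
    (by
      rw [abs_neg, abs_of_nonneg (by positivity)]
      exact mul_le_mul_of_nonneg_right hδs hu₂) hu₂)).2
  rw [← herr] at t2 t3 ⊢
  -- the model
  have hQ4 : ∀ x y : ℝ, Q N x * Q N y ≤ (Real.exp x + Real.exp (-(4 * N)) * Real.exp (-x)) * (Real.exp y + Real.exp (-(4 * N)) * Real.exp (-y)) :=
    fun x y => mul_le_mul (Q_le hN x) (Q_le hN y) (Q_nonneg N y) (by positivity)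
  have m1 := four_exp Z (N := 4 * N) hV hδ hδs (by positivity) hU (-δ) (δ * u₁) (δ * u₂) (by rw [abs_neg, abs_of_nonneg hδ])
    (by
      rw [abs_of_nonneg (by positivity)]
      exact mul_le_mul_of_nonneg_left hu hδ)
  have m2 := four_exp Z (N := 4 * N) hV hδ hδs (by positivity) hU δ (-(δ * u₂)) (δ * u₂) (by rw [abs_of_nonneg hδ])
    (by rw [abs_neg, abs_of_nonneg (by positivity)])
  have m1' := (av_mono fun ω : ∀ i, Ω i => hQ4 (s * ∑ i, Z i (ω i)) ((-δ) * ∑ i, Z i (ω i) + δ * u₁)).trans m1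
  have m2' := (av_mono fun ω : ∀ i, Ω i => hQ4 (s * ∑ i, Z i (ω i)) (δ * ∑ i, Z i (ω i) + -(δ * u₂))).trans m2
  have e1 : (s + -δ) ^ 2 = (s - δ) ^ 2 := by ring
  rw [e1] at m1'
  have m3 : Real.exp (s ^ 2 / 2 * V - E) - Real.exp (-Real.sqrt N) * (Real.exp (2 * s ^ 2 * V + E) + 1) ≤
      3 * av (fun ω : ∀ i, Ω i => Q N (s * ∑ i, Z i (ω i))) := by
    rw [← av_mul]
    refine le_trans ?_ (av_mono fun ω : ∀ i, Ω i => three_Q hN (s * ∑ i, Z i (ω i)))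
    rw [av_sub, av_mul, av_add, av_const]
    have h3 := hU (2 * s) (by rw [abs_of_nonneg (by positivity)])
    have e2 : (fun ω : ∀ i, Ω i => Real.exp (2 * (s * ∑ i, Z i (ω i)))) = fun ω => Real.exp (2 * s * ∑ i, Z i (ω i)) := by
      funext ω
      rw [mul_assoc]
    have e3 : (2 * s) ^ 2 / 2 * V + E = 2 * s ^ 2 * V + E := by ring
    rw [e2]
    rw [e3] at h3
    have h4 : Real.exp (-Real.sqrt N) * (av (fun ω : ∀ i, Ω i => Real.exp (2 * s * ∑ i, Z i (ω i))) + 1) ≤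
        Real.exp (-Real.sqrt N) * (Real.exp (2 * s ^ 2 * V + E) + 1) := mul_le_mul_of_nonneg_left (by linarith) (Real.exp_pos _).le
    linarith
  linarith

end

end Q282.LD
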